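import Mathlib

/-!
# Rota–Baxter operators on full matrix algebras (for MP_ba7cc7_al)

Weight zero and the diagonal; operators killing the diagonal; operators killing a maximal parabolic
subalgebra and associative products on `F^n`.
-/

set_option autoImplicit false

namespace Pool.Agent.J6H23.RB

open Matrix Module

/-- `R` is a Rota–Baxter operator of weight `lam` on the associative algebra `A`. -/
def IsRotaBaxter {F A : Type} [Field F] [Ring A] [Algebra F A] (lam : F) (R : A →ₗ[F] A) : Prop :=
  ∀ x y : A, R x * R y = R (R x * y + x * R y + lam • (x * y))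

/-- `R` maps diagonal matrices to diagonal matrices. -/
def PreservesDiagonal {F : Type} [Field F] {n : ℕ}
    (R : Matrix (Fin n) (Fin n) F →ₗ[F] Matrix (Fin n) (Fin n) F) : Prop :=
  ∀ d : Fin n → F, ∃ d' : Fin n → F, R (diagonal d) = diagonal d'

/-- Two operators on `M_n(F)` are equivalent if, after multiplying one of them by a nonzero scalar, they
are conjugate by an automorphism of the algebra `M_n(F)`. -/
def Equivalent {F : Type} [Field F] {n : ℕ}
    (R R' : Matrix (Fin n) (Fin n) F →ₗ[F] Matrix (Fin n) (Fin n) F) : Prop :=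
  ∃ c : F, c ≠ 0 ∧ ∃ φ : Matrix (Fin n) (Fin n) F ≃ₐ[F] Matrix (Fin n) (Fin n) F,
    ∀ X, φ (R X) = c • R' (φ X)

section construction

set_option linter.unusedSectionVars false

variable {F : Type} [Field F] {n : ℕ} {C C' : Type} [NonUnitalRing C] [Module F C]
  [IsScalarTower F C C] [SMulCommClass F C C] [NonUnitalRing C'] [Module F C']
  [IsScalarTower F C' C'] [SMulCommClass F C' C']

/-- The element of `C` whose coordinates are the first `n` entries of the last row of `X`. -/
noncomputable def lastRow (b : Basis (Fin n) F C) : Matrix (Fin (n + 1)) (Fin (n + 1)) F →ₗ[F] C where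
  toFun X := ∑ j : Fin n, X (Fin.last n) j.castSucc • b j
  map_add' X Y := by simp [add_smul, Finset.sum_add_distrib]
  map_smul' a X := by simp [mul_smul, Finset.smul_sum]

/-- The matrix with upper left block the matrix of right multiplication by `s` (acting on coordinate
rows), lower left block `-lam` times the coordinate row of `s`, and last column `0`. -/
noncomputable def emb (lam : F) (b : Basis (Fin n) F C) : C →ₗ[F] Matrix (Fin (n + 1)) (Fin (n + 1)) F where
  toFun s := Matrix.of fun i j => Fin.lastCases (motive := fun _ => F) 0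
    (fun j' => Fin.lastCases (motive := fun _ => F) (-lam * b.repr s j')
      (fun i' => b.repr (b i' * s) j') i) j
  map_add' s t := by
    ext i j
    refine Fin.lastCases ?_ (fun j' => ?_) j
    · simp
    · refine Fin.lastCases ?_ (fun i' => ?_) i
      · simp [mul_add]
      · simp [mul_add]
  map_smul' a s := by
    ext i j
    refine Fin.lastCases ?_ (fun j' => ?_) j
    · simp
    · refine Fin.lastCases ?_ (fun i' => ?_) i
      · simp
        ring
      · simp [mul_smul_comm]

/-- The operator `X ↦ emb (lastRow X)` on `M_{n+1}(F)`. -/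
noncomputable def op (lam : F) (b : Basis (Fin n) F C) :
    Matrix (Fin (n + 1)) (Fin (n + 1)) F →ₗ[F] Matrix (Fin (n + 1)) (Fin (n + 1)) F :=
  emb lam b ∘ₗ lastRow b

theorem emb_last (lam : F) (b : Basis (Fin n) F C) (s : C) (i : Fin (n + 1)) :
    emb lam b s i (Fin.last n) = 0 := by
  simp [emb]

theorem emb_row (lam : F) (b : Basis (Fin n) F C) (s : C) (j : Fin n) :
    emb lam b s (Fin.last n) j.castSucc = -lam * b.repr s j := by
  simp [emb]

theorem emb_cs (lam : F) (b : Basis (Fin n) F C) (s : C) (i j : Fin n) :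
    emb lam b s i.castSucc j.castSucc = b.repr (b i * s) j := by
  simp [emb]

theorem repr_lastRow (b : Basis (Fin n) F C) (X : Matrix (Fin (n + 1)) (Fin (n + 1)) F) (j : Fin n) :
    b.repr (lastRow b X) j = X (Fin.last n) j.castSucc := by
  classical
  simp [lastRow, Finsupp.single_apply]

theorem repr_lin (b : Basis (Fin n) F C) (b' : Basis (Fin n) F C') (g : C →ₗ[F] C') (u : C)
    (j : Fin n) : ∑ k, b.repr u k * b'.repr (g (b k)) j = b'.repr (g u) j := by
  have h : g u = ∑ k, b.repr u k • g (b k) := by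
    have h1 := congrArg g (b.sum_repr u)
    rw [map_sum] at h1
    rw [← h1]
    exact Finset.sum_congr rfl fun k _ => map_smul _ _ _
  rw [h, map_sum, Finsupp.finsetSum_apply]
  exact Finset.sum_congr rfl fun k _ => by rw [map_smul, Finsupp.smul_apply, smul_eq_mul]

theorem repr_mul (b : Basis (Fin n) F C) (u t : C) (j : Fin n) :
    ∑ k, b.repr u k * b.repr (b k * t) j = b.repr (u * t) j :=
  repr_lin b b (LinearMap.mulRight F t) u j

theorem emb_mul (lam : F) (b : Basis (Fin n) F C) (s t : C) :
    emb lam b s * emb lam b t = emb lam b (s * t) := by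
  ext i j
  rw [Matrix.mul_apply, Fin.sum_univ_castSucc, emb_last, zero_mul, add_zero]
  refine Fin.lastCases ?_ (fun j' => ?_) j
  · simp [emb_last]
  · refine Fin.lastCases ?_ (fun i' => ?_) i
    · simp only [emb_row, emb_cs]
      rw [← repr_mul b s t j', Finset.mul_sum]
      exact Finset.sum_congr rfl fun k _ => by ring
    · simp only [emb_cs]
      rw [repr_mul b (b i' * s) t j', mul_assoc]

theorem lastRow_key (lam : F) (b : Basis (Fin n) F C) (X Y : Matrix (Fin (n + 1)) (Fin (n + 1)) F) :
    lastRow b (emb lam b (lastRow b X) * Y + X * emb lam b (lastRow b Y) + lam • (X * Y)) =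
      lastRow b X * lastRow b Y := by
  apply b.repr.injective
  ext j
  rw [repr_lastRow]
  simp only [Matrix.add_apply, Matrix.smul_apply, smul_eq_mul]
  rw [Matrix.mul_apply, Matrix.mul_apply, Matrix.mul_apply, Fin.sum_univ_castSucc,
    Fin.sum_univ_castSucc, Fin.sum_univ_castSucc, emb_last, zero_mul, add_zero]
  simp only [emb_row, emb_cs]
  rw [← repr_mul b (lastRow b X) (lastRow b Y) j]
  simp only [repr_lastRow]
  have : ∑ x : Fin n, -lam * X (Fin.last n) x.castSucc * Y x.castSucc j.castSucc =
      -(lam * ∑ x : Fin n, X (Fin.last n) x.castSucc * Y x.castSucc j.castSucc) := by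
    rw [Finset.mul_sum, ← Finset.sum_neg_distrib]
    exact Finset.sum_congr rfl fun k _ => by ring
  rw [this]
  ring

theorem op_rotaBaxter (lam : F) (b : Basis (Fin n) F C) : IsRotaBaxter lam (op lam b) := by
  intro X Y
  change emb lam b (lastRow b X) * emb lam b (lastRow b Y) = emb lam b (lastRow b _)
  rw [emb_mul]
  congr 1
  exact (lastRow_key lam b X Y).symm

theorem op_diagonal (lam : F) (b : Basis (Fin n) F C) (d : Fin (n + 1) → F) :
    op lam b (diagonal d) = 0 := by
  have : lastRow b (diagonal d) = 0 := by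
    apply b.repr.injective
    ext j
    rw [repr_lastRow, Matrix.diagonal_apply_ne _ (Fin.castSucc_lt_last j).ne']
    simp
  change emb lam b (lastRow b _) = 0
  rw [this, map_zero]

theorem emb_injective (lam : F) (b : Basis (Fin n) F C)
    (h : lam ≠ 0 ∨ ∀ s : C, (∀ x : C, x * s = 0) → s = 0) : Function.Injective (emb lam b) := by
  rw [injective_iff_map_eq_zero]
  intro s hs
  rcases h with h | h
  · apply b.repr.injective
    ext j
    have := congrFun (congrFun hs (Fin.last n)) j.castSucc
    rw [emb_row] at this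
    simpa [h] using this
  · apply h
    have h1 : ∀ i, b i * s = 0 := by
      intro i
      apply b.repr.injective
      ext j
      have := congrFun (congrFun hs i.castSucc) j.castSucc
      rw [emb_cs] at this
      simpa using this
    intro x
    rw [← b.sum_repr x, Finset.sum_mul]
    exact Finset.sum_eq_zero fun i _ => by rw [smul_mul_assoc, h1, smul_zero]

theorem lastRow_surjective (b : Basis (Fin n) F C) : Function.Surjective (lastRow b) := by
  intro s
  refine ⟨Matrix.of fun _ j => Fin.lastCases (motive := fun _ => F) 0 (fun j' => b.repr s j') j, ?_⟩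
  apply b.repr.injective
  ext j
  rw [repr_lastRow]
  simp

theorem range_op (lam : F) (b : Basis (Fin n) F C) :
    LinearMap.range (op lam b) = LinearMap.range (emb lam b) := by
  unfold op
  rw [LinearMap.range_comp, LinearMap.range_eq_top.2 (lastRow_surjective b), Submodule.map_top]

/-- If the operators are equivalent then the algebras are isomorphic. -/
theorem iso_of_equivalent (lam : F) (b : Basis (Fin n) F C) (b' : Basis (Fin n) F C')
    (h : lam ≠ 0 ∨ ∀ s : C, (∀ x : C, x * s = 0) → s = 0)
    (h' : lam ≠ 0 ∨ ∀ s : C', (∀ x : C', x * s = 0) → s = 0)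
    (he : Equivalent (op lam b) (op lam b')) :
    ∃ f : C ≃ₗ[F] C', ∀ x y, f (x * y) = f x * f y := by
  obtain ⟨c, hc, φ, hφ⟩ := he
  have hi := emb_injective lam b h
  have hi' := emb_injective lam b' h'
  have h1 : ∀ s : C, ∃ s' : C', emb lam b' s' = φ (emb lam b s) := by
    intro s
    obtain ⟨X, rfl⟩ := lastRow_surjective b s
    refine ⟨c • lastRow b' (φ X), ?_⟩
    rw [map_smul]
    exact (hφ X).symm
  have h2 : ∀ s' : C', ∃ s : C, emb lam b' s' = φ (emb lam b s) := by
    intro s'
    obtain ⟨Y, rfl⟩ := lastRow_surjective b' s'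
    refine ⟨lastRow b (φ.symm (c⁻¹ • Y)), ?_⟩
    have := hφ (φ.symm (c⁻¹ • Y))
    have h3 : op lam b' (c⁻¹ • Y) = c⁻¹ • op lam b' Y := map_smul _ _ _
    rw [AlgEquiv.apply_symm_apply, h3, smul_inv_smul₀ hc] at this
    exact this.symm
  choose f hf using h1
  let g : C →ₗ[F] C' :=
    { toFun := f
      map_add' := fun x y => hi' (by rw [hf, map_add, map_add, map_add, hf, hf])
      map_smul' := fun a x => hi' (by rw [hf, map_smul, map_smul, map_smul, hf, RingHom.id_apply]) }
  have hg : ∀ x, g x = f x := fun _ => rfl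
  have hbij : Function.Bijective g := by
    constructor
    · intro x y hxy
      rw [hg, hg] at hxy
      apply hi
      apply φ.injective
      rw [← hf, ← hf, hxy]
    · intro s'
      obtain ⟨s, hs⟩ := h2 s'
      refine ⟨s, ?_⟩
      rw [hg]
      apply hi'
      rw [hf, hs]
  refine ⟨LinearEquiv.ofBijective g hbij, fun x y => ?_⟩
  simp only [LinearEquiv.ofBijective_apply, hg]
  apply hi'
  rw [hf, ← emb_mul, ← emb_mul, map_mul, hf, hf]

/-- The block matrix with upper left block the matrix of `g` and lower right entry `1`. -/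
noncomputable def blk (b : Basis (Fin n) F C) (b' : Basis (Fin n) F C') (g : C →ₗ[F] C') :
    Matrix (Fin (n + 1)) (Fin (n + 1)) F :=
  Matrix.of fun i j => Fin.lastCases (motive := fun _ => F)
    (Fin.lastCases (motive := fun _ => F) 1 (fun _ => 0) i)
    (fun j' => Fin.lastCases (motive := fun _ => F) 0 (fun i' => b'.repr (g (b i')) j') i) j

theorem blk_ll (b : Basis (Fin n) F C) (b' : Basis (Fin n) F C') (g : C →ₗ[F] C') :
    blk b b' g (Fin.last n) (Fin.last n) = 1 := by simp [blk]

theorem blk_lc (b : Basis (Fin n) F C) (b' : Basis (Fin n) F C') (g : C →ₗ[F] C') (j : Fin n) :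
    blk b b' g (Fin.last n) j.castSucc = 0 := by simp [blk]

theorem blk_cl (b : Basis (Fin n) F C) (b' : Basis (Fin n) F C') (g : C →ₗ[F] C') (i : Fin n) :
    blk b b' g i.castSucc (Fin.last n) = 0 := by simp [blk]

theorem blk_cc (b : Basis (Fin n) F C) (b' : Basis (Fin n) F C') (g : C →ₗ[F] C') (i j : Fin n) :
    blk b b' g i.castSucc j.castSucc = b'.repr (g (b i)) j := by simp [blk]

theorem blk_mul (b : Basis (Fin n) F C) (b' : Basis (Fin n) F C') (f : C ≃ₗ[F] C') :
    blk b b' f.toLinearMap * blk b' b f.symm.toLinearMap = 1 := by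
  classical
  ext i j
  rw [Matrix.mul_apply, Fin.sum_univ_castSucc]
  refine Fin.lastCases ?_ (fun j' => ?_) j
  · refine Fin.lastCases ?_ (fun i' => ?_) i
    · simp [blk_ll, blk_lc]
    · rw [Matrix.one_apply_ne (Fin.castSucc_lt_last i').ne]
      simp [blk_cl]
  · refine Fin.lastCases ?_ (fun i' => ?_) i
    · rw [Matrix.one_apply_ne (Fin.castSucc_lt_last j').ne']
      simp [blk_lc]
    · simp only [blk_cl, blk_cc, zero_mul, add_zero]
      rw [repr_lin b' b f.symm.toLinearMap (f.toLinearMap (b i')) j']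
      simp [Finsupp.single_apply, Matrix.one_apply]

/-- If the algebras are isomorphic then the operators are equivalent. -/
theorem equivalent_of_iso (lam : F) (b : Basis (Fin n) F C) (b' : Basis (Fin n) F C')
    (f : C ≃ₗ[F] C') (hf : ∀ x y, f (x * y) = f x * f y) :
    Equivalent (op lam b) (op lam b') := by
  set U := blk b b' f.toLinearMap with hU
  set V := blk b' b f.symm.toLinearMap with hV
  have hUV : U * V = 1 := blk_mul b b' f
  have hVU : V * U = 1 := by
    have := blk_mul b' b f.symm
    rwa [LinearEquiv.symm_symm] at this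
  let φ : Matrix (Fin (n + 1)) (Fin (n + 1)) F ≃ₐ[F] Matrix (Fin (n + 1)) (Fin (n + 1)) F :=
    { toFun := fun X => V * X * U
      invFun := fun X => U * X * V
      left_inv := fun X => by
        change U * (V * X * U) * V = X
        rw [show U * (V * X * U) * V = (U * V) * X * (U * V) by simp only [mul_assoc], hUV, one_mul,
          mul_one]
      right_inv := fun X => by
        change V * (U * X * V) * U = X
        rw [show V * (U * X * V) * U = (V * U) * X * (V * U) by simp only [mul_assoc], hVU, one_mul,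
          mul_one]
      map_mul' := fun X Y => by
        rw [show V * X * U * (V * Y * U) = V * X * (U * V) * Y * U by simp only [mul_assoc], hUV,
          mul_one]
        simp only [mul_assoc]
      map_add' := fun X Y => by rw [mul_add, add_mul]
      commutes' := fun a => by
        rw [← Algebra.commutes, mul_assoc, hVU, mul_one] }
  refine ⟨1, one_ne_zero, φ, fun X => ?_⟩
  rw [one_smul]
  have h1 : lastRow b' (V * X * U) = f (lastRow b X) := by
    apply b'.repr.injective
    ext j
    rw [repr_lastRow, Matrix.mul_apply, Fin.sum_univ_castSucc]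
    have h2 : ∀ k, (V * X) (Fin.last n) k = X (Fin.last n) k := by
      intro k
      rw [Matrix.mul_apply, Fin.sum_univ_castSucc]
      simp [hV, blk_ll, blk_lc]
    simp only [h2]
    rw [hU, blk_lc, mul_zero, add_zero]
    simp only [blk_cc]
    have h3 := repr_lin b b' f.toLinearMap (lastRow b X) j
    simp only [repr_lastRow] at h3
    exact h3
  have h4 : ∀ s : C, emb lam b s * U = U * emb lam b' (f s) := by
    intro s
    ext i j
    rw [Matrix.mul_apply, Matrix.mul_apply, Fin.sum_univ_castSucc, Fin.sum_univ_castSucc, emb_last,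
      zero_mul, add_zero]
    refine Fin.lastCases ?_ (fun j' => ?_) j
    · simp [hU, blk_cl, emb_last]
    · simp only [hU, blk_cc, emb_cs, emb_row]
      refine Fin.lastCases ?_ (fun i' => ?_) i
      · simp only [emb_row, blk_lc, blk_ll, zero_mul, Finset.sum_const_zero, zero_add, one_mul]
        have h5 := repr_lin b b' f.toLinearMap s j'
        rw [show (f.toLinearMap s : C') = f s from rfl] at h5
        rw [← h5, Finset.mul_sum]
        exact Finset.sum_congr rfl fun k _ => by ring
      · simp only [emb_cs, blk_cl, blk_cc, zero_mul, add_zero]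
        rw [repr_lin b b' f.toLinearMap (b i' * s) j', repr_mul b' (f.toLinearMap (b i')) (f s) j']
        change b'.repr (f (b i' * s)) j' = b'.repr (f (b i') * f s) j'
        rw [hf]
  change V * emb lam b (lastRow b X) * U = emb lam b' (lastRow b' (V * X * U))
  rw [h1, mul_assoc, h4, ← mul_assoc, hVU, one_mul]

end construction

section parabolic

variable {F : Type} [Field F] {n : ℕ}

/-- `R X = 0` for every matrix `X` whose last row is zero except possibly for its last entry. -/
def KillsParabolic (R : Matrix (Fin (n + 1)) (Fin (n + 1)) F →ₗ[F] Matrix (Fin (n + 1)) (Fin (n + 1)) F) :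
    Prop :=
  ∀ X : Matrix (Fin (n + 1)) (Fin (n + 1)) F, (∀ j : Fin n, X (Fin.last n) j.castSucc = 0) → R X = 0

theorem KillsParabolic.congr
    {R : Matrix (Fin (n + 1)) (Fin (n + 1)) F →ₗ[F] Matrix (Fin (n + 1)) (Fin (n + 1)) F}
    (hP : KillsParabolic R) {X Y : Matrix (Fin (n + 1)) (Fin (n + 1)) F}
    (h : ∀ j : Fin n, X (Fin.last n) j.castSucc = Y (Fin.last n) j.castSucc) : R X = R Y := by
  have := hP (X - Y) (fun j => by rw [Matrix.sub_apply, h, sub_self])
  rwa [map_sub, sub_eq_zero] at this

theorem low_row {lam : F}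
    {R : Matrix (Fin (n + 1)) (Fin (n + 1)) F →ₗ[F] Matrix (Fin (n + 1)) (Fin (n + 1)) F}
    (hR : IsRotaBaxter lam R) (hP : KillsParabolic R) (h0 : R ≠ 0)
    (X : Matrix (Fin (n + 1)) (Fin (n + 1)) F) (j : Fin n) :
    R X (Fin.last n) j.castSucc = -lam * X (Fin.last n) j.castSucc := by
  classical
  by_contra hne
  apply h0
  ext1 X'
  set Z := R X + lam • X with hZ
  have hz : Z (Fin.last n) j.castSucc ≠ 0 := by
    intro h
    apply hne
    rw [hZ, Matrix.add_apply, Matrix.smul_apply, smul_eq_mul] at h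
    linear_combination h
  set Y : Matrix (Fin (n + 1)) (Fin (n + 1)) F :=
    Matrix.of fun i k => if i = j.castSucc then (Z (Fin.last n) j.castSucc)⁻¹ * X' (Fin.last n) k else 0
    with hY
  have hRY : R Y = 0 := by
    apply hP
    intro k
    rw [hY]
    simp [(Fin.castSucc_lt_last j).ne']
  have h1 := hR X Y
  rw [hRY, mul_zero, mul_zero, add_zero, ← smul_mul_assoc, ← add_mul, ← hZ] at h1
  have h2 : ∀ k, (Z * Y) (Fin.last n) k = X' (Fin.last n) k := by
    intro k
    rw [Matrix.mul_apply, Finset.sum_eq_single j.castSucc]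
    · rw [hY]
      simp [hz]
    · intro i _ hi
      rw [hY]
      simp [hi]
    · simp
  rw [LinearMap.zero_apply, ← hP.congr (X := Z * Y) (Y := X') (fun k => h2 _), ← h1]

theorem lin_sum (L : (Fin n → F) →ₗ[F] F) (u : Fin n → F) :
    ∑ k, u k * L (Pi.single k 1) = L u := by
  classical
  have : u = ∑ k, u k • (Pi.single k 1 : Fin n → F) := by
    ext j
    simp [Finset.sum_apply, Pi.single_apply]
  conv_rhs => rw [this]
  simp [map_sum]

/-- Bilinear products on `F^n`. -/
abbrev Product (F : Type) [Field F] (n : ℕ) : Type := (Fin n → F) →ₗ[F] (Fin n → F) →ₗ[F] (Fin n → F)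

/-- `m` is associative. -/
def IsAssoc {F : Type} [Field F] {n : ℕ} (m : Product F n) : Prop :=
  ∀ x y z, m (m x y) z = m x (m y z)

/-- `del (x y) = del x del y - lam B(x, y)` -/
def DelLaw (lam : F) (m : Product F n) (del : (Fin n → F) →ₗ[F] F)
    (B : (Fin n → F) →ₗ[F] (Fin n → F) →ₗ[F] F) : Prop :=
  ∀ x y, del (m x y) = del x * del y - lam * B x y

/-- `B(x, y z) = B(x y, z) - del x B(y, z) + B(x, y) del z` -/
def FormLaw (m : Product F n) (del : (Fin n → F) →ₗ[F] F)
    (B : (Fin n → F) →ₗ[F] (Fin n → F) →ₗ[F] F) : Prop :=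
  ∀ x y z, B x (m y z) = B (m x y) z - del x * B y z + B x y * del z

/-- The data `(m, del, B)`: an associative product `m` on `F^n`, a linear functional `del` and a bilinear
form `B` on `F^n` with `del (x y) = del x del y - lam B(x, y)` and
`B(x, y z) = B(x y, z) - del x B(y, z) + B(x, y) del z`. -/
def IsDatum (lam : F) (m : Product F n) (del : (Fin n → F) →ₗ[F] F)
    (B : (Fin n → F) →ₗ[F] (Fin n → F) →ₗ[F] F) : Prop :=
  IsAssoc m ∧ DelLaw lam m del B ∧ FormLaw m del B

theorem IsDatum.assoc {lam : F} {m : Product F n} {del : (Fin n → F) →ₗ[F] F}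
    {B : (Fin n → F) →ₗ[F] (Fin n → F) →ₗ[F] F} (h : IsDatum lam m del B) :
    ∀ x y z, m (m x y) z = m x (m y z) := h.1

theorem IsDatum.mul {lam : F} {m : Product F n} {del : (Fin n → F) →ₗ[F] F}
    {B : (Fin n → F) →ₗ[F] (Fin n → F) →ₗ[F] F} (h : IsDatum lam m del B) :
    ∀ x y, del (m x y) = del x * del y - lam * B x y := h.2.1

theorem IsDatum.form {lam : F} {m : Product F n} {del : (Fin n → F) →ₗ[F] F}
    {B : (Fin n → F) →ₗ[F] (Fin n → F) →ₗ[F] F} (h : IsDatum lam m del B) :
    ∀ x y z, B x (m y z) = B (m x y) z - del x * B y z + B x y * del z := h.2.2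

/-- The matrix `[[rho(c) - del ⊗ c, B(·, c)], [-lam c, del c]]`, where `rho(c)` is the matrix of the right
multiplication by `c` acting on rows. -/
def blockMatrix (lam : F) (m : (Fin n → F) →ₗ[F] (Fin n → F) →ₗ[F] (Fin n → F))
    (del : (Fin n → F) →ₗ[F] F) (B : (Fin n → F) →ₗ[F] (Fin n → F) →ₗ[F] F) (c : Fin n → F) :
    Matrix (Fin (n + 1)) (Fin (n + 1)) F :=
  Matrix.of fun i j => Fin.lastCases (motive := fun _ => F)
    (Fin.lastCases (motive := fun _ => F) (del c) (fun i' => B (Pi.single i' 1) c) i)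
    (fun j' => Fin.lastCases (motive := fun _ => F) (-lam * c j')
      (fun i' => m (Pi.single i' 1) c j' - del (Pi.single i' 1) * c j') i) j

section

variable (lam : F) (m : (Fin n → F) →ₗ[F] (Fin n → F) →ₗ[F] (Fin n → F))
    (del : (Fin n → F) →ₗ[F] F) (B : (Fin n → F) →ₗ[F] (Fin n → F) →ₗ[F] F)

theorem bm_ll (c : Fin n → F) : blockMatrix lam m del B c (Fin.last n) (Fin.last n) = del c := by
  simp [blockMatrix]

theorem bm_cl (c : Fin n → F) (i : Fin n) :
    blockMatrix lam m del B c i.castSucc (Fin.last n) = B (Pi.single i 1) c := by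
  simp [blockMatrix]

theorem bm_lc (c : Fin n → F) (j : Fin n) :
    blockMatrix lam m del B c (Fin.last n) j.castSucc = -lam * c j := by
  simp [blockMatrix]

theorem bm_cc (c : Fin n → F) (i j : Fin n) : blockMatrix lam m del B c i.castSucc j.castSucc =
    m (Pi.single i 1) c j - del (Pi.single i 1) * c j := by
  simp [blockMatrix]

theorem sum_m (u c : Fin n → F) (j : Fin n) : ∑ k, u k * m (Pi.single k 1) c j = m u c j :=
  lin_sum (LinearMap.proj j ∘ₗ m.flip c) u

theorem sum_B (u c : Fin n → F) : ∑ k, u k * B (Pi.single k 1) c = B u c :=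
  lin_sum (B.flip c) u

theorem bm_mul (h : IsDatum lam m del B) (c c' : Fin n → F) :
    blockMatrix lam m del B c * blockMatrix lam m del B c' = blockMatrix lam m del B (m c c') := by
  ext i j
  rw [Matrix.mul_apply, Fin.sum_univ_castSucc]
  refine Fin.lastCases ?_ (fun j' => ?_) j
  · refine Fin.lastCases ?_ (fun i' => ?_) i
    · simp only [bm_ll, bm_lc, bm_cl]
      have h1 := sum_B B c c'
      have h2 : ∑ x, -lam * c x * B (Pi.single x 1) c' = -lam * ∑ x, c x * B (Pi.single x 1) c' := by
        rw [Finset.mul_sum]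
        exact Finset.sum_congr rfl fun k _ => by ring
      rw [h2, h1, h.mul]
      ring
    · simp only [bm_ll, bm_cc, bm_cl]
      have h1 := sum_B B (m (Pi.single i' 1) c) c'
      have h3 := sum_B B c c'
      have h2 : ∑ x, (m (Pi.single i' 1) c x - del (Pi.single i' 1) * c x) * B (Pi.single x 1) c' =
          ∑ x, m (Pi.single i' 1) c x * B (Pi.single x 1) c' -
          del (Pi.single i' 1) * ∑ x, c x * B (Pi.single x 1) c' := by
        rw [Finset.mul_sum, ← Finset.sum_sub_distrib]
        exact Finset.sum_congr rfl fun k _ => by ring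
      rw [h2, h1, h3, h.form]
  · have h1 := lin_sum del c
    have h3 := sum_m m c c' j'
    refine Fin.lastCases ?_ (fun i' => ?_) i
    · simp only [bm_ll, bm_lc, bm_cc]
      have h2 : ∑ x, -lam * c x * (m (Pi.single x 1) c' j' - del (Pi.single x 1) * c' j') =
          -lam * (∑ x, c x * m (Pi.single x 1) c' j') +
          lam * (∑ x, c x * del (Pi.single x 1)) * c' j' := by
        rw [Finset.mul_sum, Finset.mul_sum, Finset.sum_mul, ← Finset.sum_add_distrib]
        exact Finset.sum_congr rfl fun k _ => by ring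
      rw [h2, h1, h3]
      ring
    · simp only [bm_lc, bm_cc, bm_cl]
      have h4 := sum_m m (m (Pi.single i' 1) c) c' j'
      have h5 := lin_sum del (m (Pi.single i' 1) c)
      have h2 : ∑ x, (m (Pi.single i' 1) c x - del (Pi.single i' 1) * c x) *
          (m (Pi.single x 1) c' j' - del (Pi.single x 1) * c' j') =
          ∑ x, m (Pi.single i' 1) c x * m (Pi.single x 1) c' j' -
          (∑ x, m (Pi.single i' 1) c x * del (Pi.single x 1)) * c' j' -
          del (Pi.single i' 1) * (∑ x, c x * m (Pi.single x 1) c' j') +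
          del (Pi.single i' 1) * (∑ x, c x * del (Pi.single x 1)) * c' j' := by
        rw [Finset.mul_sum, Finset.mul_sum, Finset.sum_mul, Finset.sum_mul, ← Finset.sum_sub_distrib,
          ← Finset.sum_sub_distrib, ← Finset.sum_add_distrib]
        exact Finset.sum_congr rfl fun k _ => by ring
      rw [h2, h1, h3, h4, h5, h.assoc, h.mul]
      ring

/-- Every datum gives a Rota–Baxter operator. -/
theorem rotaBaxter_of_datum (h : IsDatum lam m del B)
    (R : Matrix (Fin (n + 1)) (Fin (n + 1)) F →ₗ[F] Matrix (Fin (n + 1)) (Fin (n + 1)) F)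
    (hR : ∀ X, R X = blockMatrix lam m del B (fun j => X (Fin.last n) j.castSucc)) :
    IsRotaBaxter lam R := by
  intro X Y
  rw [hR X, hR Y, bm_mul lam m del B h, hR]
  congr 1
  funext j
  set c : Fin n → F := fun j => X (Fin.last n) j.castSucc with hc
  set c' : Fin n → F := fun j => Y (Fin.last n) j.castSucc with hc'
  simp only [Matrix.add_apply, Matrix.smul_apply, smul_eq_mul]
  rw [Matrix.mul_apply, Matrix.mul_apply, Matrix.mul_apply, Fin.sum_univ_castSucc,
    Fin.sum_univ_castSucc, Fin.sum_univ_castSucc]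
  simp only [bm_lc, bm_ll, bm_cc]
  have h1 := lin_sum del c
  have h3 := sum_m m c c' j
  have e1 : ∀ x : Fin n, X (Fin.last n) x.castSucc = c x := fun _ => rfl
  have e2 : Y (Fin.last n) j.castSucc = c' j := rfl
  simp only [e1, e2]
  have h4 : ∑ x, c x * (m (Pi.single x 1) c' j - del (Pi.single x 1) * c' j) =
      ∑ x, c x * m (Pi.single x 1) c' j - (∑ x, c x * del (Pi.single x 1)) * c' j := by
    rw [Finset.sum_mul, ← Finset.sum_sub_distrib]
    exact Finset.sum_congr rfl fun k _ => by ring
  have h5 : ∑ x, -lam * c x * Y x.castSucc j.castSucc =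
      -(lam * ∑ x, c x * Y x.castSucc j.castSucc) := by
    rw [Finset.mul_sum, ← Finset.sum_neg_distrib]
    exact Finset.sum_congr rfl fun k _ => by ring
  rw [h4, h5, h1, h3]
  ring

end

/-- the matrix with last row `(c, 0)` and all other rows zero -/
def rowMatrix : (Fin n → F) →ₗ[F] Matrix (Fin (n + 1)) (Fin (n + 1)) F where
  toFun c := Matrix.of fun i j => Fin.lastCases (motive := fun _ => F) 0
    (fun j' => Fin.lastCases (motive := fun _ => F) (c j') (fun _ => 0) i) j
  map_add' c c' := by
    ext i j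
    refine Fin.lastCases ?_ (fun j' => ?_) j
    · simp
    · refine Fin.lastCases ?_ (fun i' => ?_) i <;> simp
  map_smul' a c := by
    ext i j
    refine Fin.lastCases ?_ (fun j' => ?_) j
    · simp
    · refine Fin.lastCases ?_ (fun i' => ?_) i <;> simp

theorem rm_l (c : Fin n → F) (i : Fin (n + 1)) : rowMatrix c i (Fin.last n) = 0 := by
  simp [rowMatrix]

theorem rm_lc (c : Fin n → F) (j : Fin n) : rowMatrix c (Fin.last n) j.castSucc = c j := by
  simp [rowMatrix]

theorem rm_c (c : Fin n → F) (i : Fin n) (j : Fin (n + 1)) : rowMatrix c i.castSucc j = 0 := by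
  refine Fin.lastCases ?_ (fun j' => ?_) j <;> simp [rowMatrix]

/-- Every nonzero Rota–Baxter operator killing the parabolic subalgebra comes from a datum. -/
theorem datum_of_rotaBaxter {lam : F}
    {R : Matrix (Fin (n + 1)) (Fin (n + 1)) F →ₗ[F] Matrix (Fin (n + 1)) (Fin (n + 1)) F}
    (hR : IsRotaBaxter lam R) (hP : KillsParabolic R) (h0 : R ≠ 0) :
    ∃ (m : (Fin n → F) →ₗ[F] (Fin n → F) →ₗ[F] (Fin n → F)) (del : (Fin n → F) →ₗ[F] F)
      (B : (Fin n → F) →ₗ[F] (Fin n → F) →ₗ[F] F), IsDatum lam m del B ∧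
      ∀ X, R X = blockMatrix lam m del B (fun j => X (Fin.last n) j.castSucc) := by
  classical
  obtain ⟨Φ, hΦ⟩ : ∃ Φ : (Fin n → F) →ₗ[F] Matrix (Fin (n + 1)) (Fin (n + 1)) F,
      ∀ c, Φ c = R (rowMatrix c) := ⟨R ∘ₗ rowMatrix, fun _ => rfl⟩
  have hlow : ∀ (c : Fin n → F) (j : Fin n), Φ c (Fin.last n) j.castSucc = -lam * c j := by
    intro c j
    rw [hΦ, low_row hR hP h0, rm_lc]
  let del : (Fin n → F) →ₗ[F] F :=
    { toFun := fun c => Φ c (Fin.last n) (Fin.last n)
      map_add' := fun c c' => by rw [map_add, Matrix.add_apply]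
      map_smul' := fun a c => by rw [map_smul, Matrix.smul_apply, RingHom.id_apply] }
  have hdel : ∀ c, del c = Φ c (Fin.last n) (Fin.last n) := fun _ => rfl
  let B : (Fin n → F) →ₗ[F] (Fin n → F) →ₗ[F] F :=
    LinearMap.mk₂ F (fun x c => ∑ i : Fin n, x i * Φ c i.castSucc (Fin.last n))
      (fun x x' c => by simp [add_mul, Finset.sum_add_distrib])
      (fun a x c => by simp [Finset.mul_sum, mul_assoc])
      (fun x c c' => by simp [mul_add, Finset.sum_add_distrib])
      (fun a x c => by
        simp only [map_smul, Matrix.smul_apply, smul_eq_mul, Finset.mul_sum]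
        exact Finset.sum_congr rfl fun _ _ => by ring)
  have hB : ∀ x c, B x c = ∑ i : Fin n, x i * Φ c i.castSucc (Fin.last n) := fun _ _ => rfl
  let m : (Fin n → F) →ₗ[F] (Fin n → F) →ₗ[F] (Fin n → F) :=
    LinearMap.mk₂ F (fun x c => fun j => ∑ i : Fin n, x i * Φ c i.castSucc j.castSucc + del x * c j)
      (fun x x' c => by
        funext j
        simp [add_mul, Finset.sum_add_distrib]
        ring)
      (fun a x c => by
        funext j
        simp [Finset.mul_sum, mul_assoc, mul_add])
      (fun x c c' => by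
        funext j
        simp [mul_add, Finset.sum_add_distrib]
        ring)
      (fun a x c => by
        funext j
        simp only [map_smul, Matrix.smul_apply, smul_eq_mul, Finset.mul_sum, Pi.smul_apply, mul_add]
        congr 1
        · exact Finset.sum_congr rfl fun _ _ => by ring
        · ring)
  have hm : ∀ x c j, m x c j = ∑ i : Fin n, x i * Φ c i.castSucc j.castSucc + del x * c j :=
    fun _ _ _ => rfl
  have key : ∀ x y, Φ x * Φ y = Φ (m x y) := by
    intro x y
    have h1 := hR (rowMatrix x) (rowMatrix y)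
    rw [← hΦ, ← hΦ] at h1
    rw [h1, hΦ (m x y)]
    apply hP.congr
    intro j
    rw [rm_lc, hm]
    simp only [Matrix.add_apply, Matrix.smul_apply, smul_eq_mul]
    rw [Matrix.mul_apply, Matrix.mul_apply, Matrix.mul_apply, Fin.sum_univ_castSucc,
      Fin.sum_univ_castSucc, Fin.sum_univ_castSucc]
    simp only [rm_c, rm_lc, rm_l, mul_zero, zero_mul, Finset.sum_const_zero, zero_add, add_zero]
    rw [hdel, add_comm]
  have hmul : ∀ x y, del (m x y) = del x * del y - lam * B x y := by
    intro x y
    rw [hdel, ← key, Matrix.mul_apply, Fin.sum_univ_castSucc, hB, hdel x, hdel y]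
    simp only [hlow]
    rw [Finset.mul_sum, sub_eq_add_neg, ← Finset.sum_neg_distrib, add_comm]
    congr 1
    exact Finset.sum_congr rfl fun _ _ => by ring
  have hcol : ∀ x y z (j : Fin (n + 1)), ∑ i : Fin n, x i * Φ (m y z) i.castSucc j =
      ∑ k : Fin n, (m x y k - del x * y k) * Φ z k.castSucc j + B x y * Φ z (Fin.last n) j := by
    intro x y z j
    have e : ∀ i : Fin n, Φ (m y z) i.castSucc j = ∑ k : Fin n, Φ y i.castSucc k.castSucc *
        Φ z k.castSucc j + Φ y i.castSucc (Fin.last n) * Φ z (Fin.last n) j := by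
      intro i
      rw [← key, Matrix.mul_apply, Fin.sum_univ_castSucc]
    simp only [e, mul_add, Finset.sum_add_distrib, Finset.mul_sum]
    rw [Finset.sum_comm, hB, Finset.sum_mul]
    congr 1
    · refine Finset.sum_congr rfl fun k _ => ?_
      rw [hm, add_sub_cancel_right, Finset.sum_mul]
      exact Finset.sum_congr rfl fun _ _ => by ring
    · exact Finset.sum_congr rfl fun _ _ => by ring
  have hform : ∀ x y z, B x (m y z) = B (m x y) z - del x * B y z + B x y * del z := by
    intro x y z
    rw [hB x (m y z), hcol, hdel z, hB (m x y) z, hB y z, Finset.mul_sum, ← Finset.sum_sub_distrib]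
    congr 1
    exact Finset.sum_congr rfl fun _ _ => by ring
  have hassoc : ∀ x y z, m (m x y) z = m x (m y z) := by
    intro x y z
    funext j
    rw [hm (m x y) z, hm x (m y z), hcol, hm y z, hmul, hlow]
    have e : ∑ k : Fin n, (m x y k - del x * y k) * Φ z k.castSucc j.castSucc =
        ∑ k : Fin n, m x y k * Φ z k.castSucc j.castSucc -
        del x * ∑ k : Fin n, y k * Φ z k.castSucc j.castSucc := by
      rw [Finset.mul_sum, ← Finset.sum_sub_distrib]
      exact Finset.sum_congr rfl fun _ _ => by ring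
    rw [e]
    ring
  refine ⟨m, del, B, ⟨hassoc, hmul, hform⟩, fun X => ?_⟩
  have hX : R X = Φ (fun j => X (Fin.last n) j.castSucc) := by
    rw [hΦ]
    apply hP.congr
    intro j
    rw [rm_lc]
  rw [hX]
  set c : Fin n → F := fun j => X (Fin.last n) j.castSucc with hc
  ext i j
  refine Fin.lastCases ?_ (fun j' => ?_) j
  · refine Fin.lastCases ?_ (fun i' => ?_) i
    · rw [bm_ll, hdel]
    · rw [bm_cl, hB, Finset.sum_eq_single i']
      · simp
      · intro k _ hk
        simp [hk]
      · simp
  · refine Fin.lastCases ?_ (fun i' => ?_) i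
    · rw [bm_lc, hlow]
    · rw [bm_cc, hm, Finset.sum_eq_single i']
      · simp
      · intro k _ hk
        simp [hk]
      · simp

end parabolic

section realise

variable {F : Type} [Field F] {n : ℕ}

/-- the space `F^n`, to be given the product `m` -/
def DatumAlg (_m : (Fin n → F) →ₗ[F] (Fin n → F) →ₗ[F] (Fin n → F)) : Type := Fin n → F

instance datumGroup (m : (Fin n → F) →ₗ[F] (Fin n → F) →ₗ[F] (Fin n → F)) :
    AddCommGroup (DatumAlg m) := inferInstanceAs (AddCommGroup (Fin n → F))

instance datumModule (m : (Fin n → F) →ₗ[F] (Fin n → F) →ₗ[F] (Fin n → F)) :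
    Module F (DatumAlg m) := inferInstanceAs (Module F (Fin n → F))

/-- the ring structure on `F^n` with product `m` -/
@[reducible] def datumRing (m : (Fin n → F) →ₗ[F] (Fin n → F) →ₗ[F] (Fin n → F))
    (h : ∀ x y z, m (m x y) z = m x (m y z)) : NonUnitalRing (DatumAlg m) :=
  { datumGroup m with
    mul := fun x y => m x y
    left_distrib := fun x y z => (m x).map_add y z
    right_distrib := fun x y z => m.map_add₂ x y z
    zero_mul := fun x => m.map_zero₂ x
    mul_zero := fun x => (m x).map_zero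
    mul_assoc := h }

end realise

section split

variable {F : Type} [Field F] {n : ℕ}

/-- Nonzero weight, operators killing the diagonal: they are, up to the factor `-lam`, the projections
onto a subalgebra `V` along the incidence algebra of a preorder `r`, where `V` is a complement of it. -/
theorem kills_diagonal_iff {lam : F} (hl : lam ≠ 0)
    (R : Matrix (Fin n) (Fin n) F →ₗ[F] Matrix (Fin n) (Fin n) F) :
    (IsRotaBaxter lam R ∧ ∀ d, R (diagonal d) = 0) ↔
      ∃ (r : Fin n → Fin n → Prop) (V K : Submodule F (Matrix (Fin n) (Fin n) F)),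
        (∀ i, r i i) ∧ (∀ i j k, r i j → r j k → r i k) ∧
        (∀ X, X ∈ K ↔ ∀ i j, ¬ r i j → X i j = 0) ∧
        (∀ X ∈ V, ∀ Y ∈ V, X * Y ∈ V) ∧ IsCompl V K ∧
        (∀ X ∈ V, R X = -lam • X) ∧ (∀ X ∈ K, R X = 0) := by
  classical
  constructor
  · rintro ⟨hR, hd⟩
    have h1 : R 1 = 0 := by
      rw [← diagonal_one]
      exact hd _
    have hK : ∀ X Y, R X = 0 → R Y = 0 → R (X * Y) = 0 := by
      intro X Y hX hY
      have := hR X Y
      rw [hX, hY, zero_mul, zero_mul, mul_zero, add_zero, zero_add, map_smul] at this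
      exact (smul_eq_zero.1 this.symm).resolve_left hl
    have hV : ∀ X, R (R X) = -lam • R X := by
      intro X
      have := hR 1 X
      rw [h1, zero_mul, zero_mul, zero_add, one_mul, one_mul, map_add, map_smul] at this
      rw [neg_smul]
      exact eq_neg_of_add_eq_zero_left this.symm
    have hs : ∀ i j : Fin n, ∀ X : Matrix (Fin n) (Fin n) F,
        diagonal (Pi.single i (1 : F)) * X * diagonal (Pi.single j (1 : F)) =
          X i j • Matrix.single i j (1 : F) := by
      intro i j X
      ext k l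
      rw [Matrix.mul_diagonal, Matrix.diagonal_mul, Matrix.smul_apply, smul_eq_mul]
      by_cases hk : i = k
      · subst hk
        by_cases hl : j = l
        · subst hl
          simp
        · simp [hl, Ne.symm hl]
      · simp [Pi.single_apply, hk, Ne.symm hk]
    refine ⟨fun i j => R (Matrix.single i j (1 : F)) = 0, LinearMap.range R, LinearMap.ker R,
      fun i => ?_, fun i j k hij hjk => ?_, fun X => ?_, ?_, ?_, ?_, ?_⟩
    · change R (Matrix.single i i (1 : F)) = 0
      rw [← Matrix.diagonal_single]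
      exact hd _
    · change R (Matrix.single i k (1 : F)) = 0
      have := hK _ _ hij hjk
      rwa [Matrix.single_mul_single_same, mul_one] at this
    · rw [LinearMap.mem_ker]
      constructor
      · intro hX i j hij
        by_contra hne
        apply hij
        have := hK _ _ (hK _ _ (hd (Pi.single i 1)) hX) (hd (Pi.single j 1))
        rw [hs, map_smul] at this
        exact (smul_eq_zero.1 this).resolve_left hne
      · intro h
        rw [Matrix.matrix_eq_sum_single X, map_sum]
        refine Finset.sum_eq_zero fun i _ => ?_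
        rw [map_sum]
        refine Finset.sum_eq_zero fun j _ => ?_
        by_cases hij : R (Matrix.single i j (1 : F)) = 0
        · have : Matrix.single i j (X i j) = X i j • Matrix.single i j (1 : F) := by
            rw [Matrix.smul_single, smul_eq_mul, mul_one]
          rw [this, map_smul, hij, smul_zero]
        · rw [h i j hij, Matrix.single_zero, map_zero]
    · rintro _ ⟨X, rfl⟩ _ ⟨Y, rfl⟩
      exact ⟨_, (hR X Y).symm⟩
    · constructor
      · rw [disjoint_iff_inf_le]
        rintro _ ⟨⟨X, rfl⟩, hX⟩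
        have h2 : R (R X) = 0 := hX
        rw [hV] at h2
        exact (smul_eq_zero.1 h2).resolve_left (neg_ne_zero.2 hl)
      · rw [codisjoint_iff_le_sup]
        intro X _
        have h3 : X = -lam⁻¹ • R X + (X + lam⁻¹ • R X) := by
          rw [neg_smul]
          abel
        rw [h3]
        refine Submodule.add_mem_sup ⟨-lam⁻¹ • X, by rw [map_smul]⟩ ?_
        rw [LinearMap.mem_ker, map_add, map_smul, hV, smul_smul, mul_neg, inv_mul_cancel₀ hl, neg_smul,
          one_smul, add_neg_cancel]
    · rintro _ ⟨X, rfl⟩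
      exact hV X
    · intro X hX
      exact hX
  · rintro ⟨r, V, K, hr, ht, hK, hV, hc, hRV, hRK⟩
    have hKK : ∀ X ∈ K, ∀ Y ∈ K, X * Y ∈ K := by
      intro X hX Y hY
      rw [hK] at hX hY ⊢
      intro i j hij
      rw [Matrix.mul_apply]
      refine Finset.sum_eq_zero fun k _ => ?_
      by_cases hik : r i k
      · rw [hY k j (fun h => hij (ht _ _ _ hik h)), mul_zero]
      · rw [hX i k hik, zero_mul]
    refine ⟨fun X Y => ?_, fun d => ?_⟩
    · obtain ⟨v, hv, k, hk, rfl⟩ := Submodule.mem_sup.1 (hc.sup_eq_top ▸ Submodule.mem_top : X ∈ V ⊔ K)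
      obtain ⟨v', hv', k', hk', rfl⟩ :=
        Submodule.mem_sup.1 (hc.sup_eq_top ▸ Submodule.mem_top : Y ∈ V ⊔ K)
      rw [map_add, map_add, hRV v hv, hRV v' hv', hRK k hk, hRK k' hk', add_zero, add_zero]
      have e : -lam • v * (v' + k') + (v + k) * (-lam • v') + lam • ((v + k) * (v' + k')) =
          -lam • (v * v') + lam • (k * k') := by
        simp only [neg_smul, neg_mul, mul_neg, smul_mul_assoc, mul_smul_comm, mul_add, add_mul,
          smul_add]
        abel
      rw [e, map_add, map_smul, map_smul, hRK _ (hKK k hk k' hk'), hRV _ (hV v hv v' hv'), smul_zero,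
        add_zero, smul_mul_smul_comm, smul_smul]
    · apply hRK
      rw [hK]
      intro i j hij
      apply Matrix.diagonal_apply_ne
      rintro rfl
      exact hij (hr i)

end split

/-- Weight zero: a diagonal-preserving operator kills the diagonal and has square zero. -/
theorem weight_zero {F : Type} [Field F] [CharZero F] {n : ℕ}
    (R : Matrix (Fin n) (Fin n) F →ₗ[F] Matrix (Fin n) (Fin n) F) (hR : IsRotaBaxter 0 R)
    (hd : PreservesDiagonal R) : (∀ d, R (diagonal d) = 0) ∧ ∀ X, R (R X) = 0 := by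
  classical
  have h0 : ∀ i : Fin n, R (diagonal (Pi.single i 1)) = 0 := by
    intro i
    obtain ⟨a, ha⟩ := hd (Pi.single i 1)
    have h1 := hR (diagonal (Pi.single i 1)) (diagonal (Pi.single i 1))
    rw [ha, zero_smul, add_zero, diagonal_mul_diagonal, diagonal_mul_diagonal,
      diagonal_mul_diagonal, diagonal_add] at h1
    have h2 : (fun j => a j * (Pi.single i 1 : Fin n → F) j + (Pi.single i 1 : Fin n → F) j * a j) =
        (2 * a i) • (Pi.single i 1 : Fin n → F) := by
      funext j
      by_cases hj : j = i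
      · subst hj
        simp
        ring
      · simp [Pi.single_eq_of_ne hj]
    rw [h2, diagonal_smul, map_smul, ha, ← diagonal_smul] at h1
    have h3 : ∀ j, a j * a j = 2 * a i * a j := by
      intro j
      have := congrFun (congrFun h1 j) j
      simpa using this
    have h4 : a i = 0 := by
      have := h3 i
      have h5 : a i * a i = 0 := by linear_combination -this
      simpa using h5
    rw [ha]
    have h6 : a = 0 := by
      funext j
      have := h3 j
      rw [h4, mul_zero, zero_mul] at this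
      simpa using this
    rw [h6]
    exact diagonal_zero
  have h7 : ∀ d, R (diagonal d) = 0 := by
    intro d
    have h8 : (diagonal d : Matrix (Fin n) (Fin n) F) =
        ∑ i, d i • diagonal (Pi.single i (1 : F)) := by
      ext j k
      rw [Matrix.sum_apply]
      by_cases hjk : j = k
      · subst hjk
        simp [Pi.single_apply]
      · simp [Matrix.diagonal_apply_ne _ hjk]
    rw [h8, map_sum]
    exact Finset.sum_eq_zero fun i _ => by rw [map_smul, h0, smul_zero]
  refine ⟨h7, fun X => ?_⟩
  have h9 := hR 1 X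
  have h10 : R 1 = 0 := by
    rw [← diagonal_one]
    exact h7 _
  rw [h10, zero_mul, zero_mul, zero_add, one_mul, zero_smul, add_zero] at h9
  exact h9.symm

/-- Weight zero: the diagonal-preserving operators are exactly the inverses of bijective derivations
`V → M_n(F) / K`. -/
theorem weight_zero_iff {F : Type} [Field F] [CharZero F] {n : ℕ}
    (R : Matrix (Fin n) (Fin n) F →ₗ[F] Matrix (Fin n) (Fin n) F) :
    (IsRotaBaxter 0 R ∧ PreservesDiagonal R) ↔
      ∃ (V K : Submodule F (Matrix (Fin n) (Fin n) F))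
        (δ : Matrix (Fin n) (Fin n) F →ₗ[F] Matrix (Fin n) (Fin n) F),
        (∀ X ∈ V, ∀ Y ∈ V, X * Y ∈ V) ∧ (∀ d, diagonal d ∈ K) ∧
        (∀ X ∈ V, ∀ Y ∈ K, X * Y ∈ K ∧ Y * X ∈ K) ∧
        (∀ X ∈ V, ∀ Y ∈ V, δ (X * Y) - (δ X * Y + X * δ Y) ∈ K) ∧
        (∀ Z, ∃ X ∈ V, Z - δ X ∈ K) ∧ (∀ X ∈ V, R (δ X) = X) ∧ (∀ Y ∈ K, R Y = 0) := by
  constructor
  · rintro ⟨hR, hd⟩
    obtain ⟨h1, -⟩ := weight_zero R hR hd
    obtain ⟨s, hs⟩ := R.rangeRestrict.exists_rightInverse_of_surjective R.range_rangeRestrict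
    obtain ⟨δ, hδ⟩ := LinearMap.exists_extend s
    have h2 : ∀ X ∈ LinearMap.range R, R (δ X) = X := by
      intro X hX
      have e1 : δ X = s ⟨X, hX⟩ := congrArg (fun g => g ⟨X, hX⟩) hδ
      have e2 := congrArg Subtype.val (congrArg (fun g => g ⟨X, hX⟩) hs)
      rw [e1]
      exact e2
    refine ⟨LinearMap.range R, LinearMap.ker R, δ, ?_, h1, ?_, ?_, ?_, h2, fun Y hY => hY⟩
    · rintro _ ⟨X, rfl⟩ _ ⟨Y, rfl⟩
      exact ⟨_, (hR X Y).symm⟩
    · rintro _ ⟨X, rfl⟩ Y hY
      rw [LinearMap.mem_ker] at hY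
      constructor
      · have := hR X Y
        rw [hY, mul_zero, mul_zero, add_zero, zero_smul, add_zero] at this
        exact this.symm
      · have := hR Y X
        rw [hY, zero_mul, zero_mul, zero_add, zero_smul, add_zero] at this
        exact this.symm
    · intro X hX Y hY
      have h3 : X * Y ∈ LinearMap.range R := by
        obtain ⟨X, rfl⟩ := hX
        obtain ⟨Y, rfl⟩ := hY
        exact ⟨_, (hR X Y).symm⟩
      have := hR (δ X) (δ Y)
      rw [h2 X hX, h2 Y hY, zero_smul, add_zero] at this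
      rw [LinearMap.mem_ker, map_sub, h2 _ h3, add_comm (δ X * Y), ← this, sub_self]
    · intro Z
      refine ⟨R Z, ⟨Z, rfl⟩, ?_⟩
      rw [LinearMap.mem_ker, map_sub, h2 _ ⟨Z, rfl⟩, sub_self]
  · rintro ⟨V, K, δ, hV, hD, hVK, hδ, hs, hRV, hRK⟩
    refine ⟨fun X Y => ?_, fun d => ⟨0, ?_⟩⟩
    · obtain ⟨u, hu, hk⟩ := hs X
      obtain ⟨v, hv, hl⟩ := hs Y
      have e1 : R X = u := by
        have := hRK _ hk
        rw [map_sub, hRV u hu, sub_eq_zero] at this
        exact this
      have e2 : R Y = v := by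
        have := hRK _ hl
        rw [map_sub, hRV v hv, sub_eq_zero] at this
        exact this
      rw [e1, e2, zero_smul, add_zero]
      have e3 : u * Y + X * v = δ (u * v) + (u * (Y - δ v) + (X - δ u) * v) -
          (δ (u * v) - (δ u * v + u * δ v)) := by
        rw [mul_sub, sub_mul]
        abel
      rw [e3, map_sub, map_add, map_add, hRV _ (hV u hu v hv), hRK _ (hVK u hu _ hl).1,
        hRK _ (hVK v hv _ hk).2, hRK _ (hδ u hu v hv), add_zero, add_zero, sub_zero]
    · rw [hRK _ (hD d)]
      exact diagonal_zero.symm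

theorem op_kills {F : Type} [Field F] {n : ℕ} {C : Type} [NonUnitalRing C] [Module F C]
    [IsScalarTower F C C] [SMulCommClass F C C] (lam : F) (b : Basis (Fin n) F C) :
    KillsParabolic (op lam b) := by
  intro X hX
  have : lastRow b X = 0 := by
    apply b.repr.injective
    ext j
    rw [repr_lastRow, hX]
    simp
  change emb lam b (lastRow b X) = 0
  rw [this, map_zero]

section family

variable {F : Type} [Field F]

/-- the first four indices of `Fin (k + 4)` -/
def ix (k : ℕ) (i : Fin 4) : Fin (k + 4) := ⟨i, by omega⟩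

theorem ix_inj (k : ℕ) {a b : Fin 4} : ix k a = ix k b ↔ a = b := by
  unfold ix
  rw [Fin.mk.injEq]
  exact Fin.val_inj

theorem ix_cases (k : ℕ) (j : Fin (k + 4)) :
    j = ix k 0 ∨ j = ix k 1 ∨ j = ix k 2 ∨ j = ix k 3 ∨ 3 < (j : ℕ) := by
  obtain ⟨j, hj⟩ := j
  simp only [ix, Fin.mk.injEq]
  change j = 0 ∨ j = 1 ∨ j = 2 ∨ j = 3 ∨ 3 < j
  omega

theorem ix_ne (k : ℕ) (a : Fin 4) {j : Fin (k + 4)} (hj : 3 < (j : ℕ)) : j ≠ ix k a := by
  intro h
  rw [h] at hj
  have : (ix k a : ℕ) = a := rfl
  omega

/-- The product on `F^(k+4)` of the direct product of `F^k` and the algebra with basis `1, x, y, xy`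
and relations `x^2 = y^2 = 0`, `y x = q x y`. -/
def famProd (k : ℕ) (q : F) :
    (Fin (k + 4) → F) →ₗ[F] (Fin (k + 4) → F) →ₗ[F] (Fin (k + 4) → F) :=
  LinearMap.mk₂ F (fun x y => fun j =>
    if j = ix k 0 then x (ix k 0) * y (ix k 0)
    else if j = ix k 1 then x (ix k 0) * y (ix k 1) + x (ix k 1) * y (ix k 0)
    else if j = ix k 2 then x (ix k 0) * y (ix k 2) + x (ix k 2) * y (ix k 0)
    else if j = ix k 3 then x (ix k 0) * y (ix k 3) + x (ix k 3) * y (ix k 0) +
      x (ix k 1) * y (ix k 2) + q * (x (ix k 2) * y (ix k 1))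
    else x j * y j)
    (fun x x' y => by
      funext j
      simp only [Pi.add_apply]
      split_ifs <;> ring)
    (fun a x y => by
      funext j
      simp only [Pi.smul_apply, smul_eq_mul]
      split_ifs <;> ring)
    (fun x y y' => by
      funext j
      simp only [Pi.add_apply]
      split_ifs <;> ring)
    (fun a x y => by
      funext j
      simp only [Pi.smul_apply, smul_eq_mul]
      split_ifs <;> ring)

theorem fam_apply (k : ℕ) (q : F) (x y : Fin (k + 4) → F) (j : Fin (k + 4)) :
    famProd k q x y j =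
    if j = ix k 0 then x (ix k 0) * y (ix k 0)
    else if j = ix k 1 then x (ix k 0) * y (ix k 1) + x (ix k 1) * y (ix k 0)
    else if j = ix k 2 then x (ix k 0) * y (ix k 2) + x (ix k 2) * y (ix k 0)
    else if j = ix k 3 then x (ix k 0) * y (ix k 3) + x (ix k 3) * y (ix k 0) +
      x (ix k 1) * y (ix k 2) + q * (x (ix k 2) * y (ix k 1))
    else x j * y j := rfl

theorem fam0 (k : ℕ) (q : F) (x y : Fin (k + 4) → F) :
    famProd k q x y (ix k 0) = x (ix k 0) * y (ix k 0) := by
  rw [fam_apply, if_pos rfl]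

theorem fam1 (k : ℕ) (q : F) (x y : Fin (k + 4) → F) :
    famProd k q x y (ix k 1) = x (ix k 0) * y (ix k 1) + x (ix k 1) * y (ix k 0) := by
  rw [fam_apply, if_neg (by rw [ix_inj]; decide), if_pos rfl]

theorem fam2 (k : ℕ) (q : F) (x y : Fin (k + 4) → F) :
    famProd k q x y (ix k 2) = x (ix k 0) * y (ix k 2) + x (ix k 2) * y (ix k 0) := by
  rw [fam_apply, if_neg (by rw [ix_inj]; decide), if_neg (by rw [ix_inj]; decide), if_pos rfl]

theorem fam3 (k : ℕ) (q : F) (x y : Fin (k + 4) → F) :
    famProd k q x y (ix k 3) = x (ix k 0) * y (ix k 3) + x (ix k 3) * y (ix k 0) +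
      x (ix k 1) * y (ix k 2) + q * (x (ix k 2) * y (ix k 1)) := by
  rw [fam_apply, if_neg (by rw [ix_inj]; decide), if_neg (by rw [ix_inj]; decide),
    if_neg (by rw [ix_inj]; decide), if_pos rfl]

theorem fam4 (k : ℕ) (q : F) (x y : Fin (k + 4) → F) {j : Fin (k + 4)} (hj : 3 < (j : ℕ)) :
    famProd k q x y j = x j * y j := by
  rw [fam_apply, if_neg (ix_ne k _ hj), if_neg (ix_ne k _ hj), if_neg (ix_ne k _ hj),
    if_neg (ix_ne k _ hj)]

omit [Field F] in
theorem fam_ext (k : ℕ) {u v : Fin (k + 4) → F} (h0 : u (ix k 0) = v (ix k 0))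
    (h1 : u (ix k 1) = v (ix k 1)) (h2 : u (ix k 2) = v (ix k 2)) (h3 : u (ix k 3) = v (ix k 3))
    (h4 : ∀ j : Fin (k + 4), 3 < (j : ℕ) → u j = v j) : u = v := by
  funext j
  rcases ix_cases k j with h | h | h | h | h
  · rw [h, h0]
  · rw [h, h1]
  · rw [h, h2]
  · rw [h, h3]
  · exact h4 j h

theorem fam_assoc (k : ℕ) (q : F) (x y z : Fin (k + 4) → F) :
    famProd k q (famProd k q x y) z = famProd k q x (famProd k q y z) := by
  apply fam_ext
  · simp only [fam0]
    ring
  · simp only [fam0, fam1]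
    ring
  · simp only [fam0, fam2]
    ring
  · simp only [fam0, fam1, fam2, fam3]
    ring
  · intro j hj
    simp only [fam4 k q _ _ hj]
    ring

/-- the unit of the algebra `famProd k q` -/
def famOne (F : Type) [Field F] (k : ℕ) : Fin (k + 4) → F :=
  fun j => if j = ix k 1 ∨ j = ix k 2 ∨ j = ix k 3 then 0 else 1

theorem fam_one (k : ℕ) (q : F) (x : Fin (k + 4) → F) : famProd k q (famOne F k) x = x := by
  have e0 : famOne F k (ix k 0) = 1 := by
    unfold famOne
    rw [if_neg]
    simp only [ix_inj]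
    decide
  have e1 : famOne F k (ix k 1) = 0 := by
    unfold famOne
    rw [if_pos (Or.inl rfl)]
  have e2 : famOne F k (ix k 2) = 0 := by
    unfold famOne
    rw [if_pos (Or.inr (Or.inl rfl))]
  have e3 : famOne F k (ix k 3) = 0 := by
    unfold famOne
    rw [if_pos (Or.inr (Or.inr rfl))]
  apply fam_ext
  · rw [fam0, e0, one_mul]
  · rw [fam1, e0, e1, one_mul, zero_mul, add_zero]
  · rw [fam2, e0, e2, one_mul, zero_mul, add_zero]
  · rw [fam3, e0, e1, e2, e3]
    ring
  · intro j hj
    rw [fam4 k q _ _ hj]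
    unfold famOne
    rw [if_neg, one_mul]
    rintro (h | h | h)
    · exact ix_ne k _ hj h
    · exact ix_ne k _ hj h
    · exact ix_ne k _ hj h

theorem fam_noniso (k : ℕ) {q q' : F} (hq : 1 + q' ≠ 0) (hqq : q ≠ q')
    (hqq' : q * q' ≠ 1) (f : (Fin (k + 4) → F) ≃ₗ[F] (Fin (k + 4) → F))
    (hf : ∀ x y, f (famProd k q x y) = famProd k q' (f x) (f y)) : False := by
  classical
  obtain ⟨X, hX⟩ : ∃ X : Fin (k + 4) → F, X = Pi.single (ix k 1) 1 := ⟨_, rfl⟩
  obtain ⟨Y, hY⟩ : ∃ Y : Fin (k + 4) → F, Y = Pi.single (ix k 2) 1 := ⟨_, rfl⟩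
  have X0 : X (ix k 0) = 0 := by
    rw [hX, Pi.single_eq_of_ne (by rw [Ne, ix_inj]; decide)]
  have X1 : X (ix k 1) = 1 := by
    rw [hX, Pi.single_eq_same]
  have X2 : X (ix k 2) = 0 := by
    rw [hX, Pi.single_eq_of_ne (by rw [Ne, ix_inj]; decide)]
  have X3 : X (ix k 3) = 0 := by
    rw [hX, Pi.single_eq_of_ne (by rw [Ne, ix_inj]; decide)]
  have X4 : ∀ j : Fin (k + 4), 3 < (j : ℕ) → X j = 0 := by
    intro j hj
    rw [hX, Pi.single_eq_of_ne (ix_ne k _ hj)]
  have Y0 : Y (ix k 0) = 0 := by
    rw [hY, Pi.single_eq_of_ne (by rw [Ne, ix_inj]; decide)]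
  have Y1 : Y (ix k 1) = 0 := by
    rw [hY, Pi.single_eq_of_ne (by rw [Ne, ix_inj]; decide)]
  have Y2 : Y (ix k 2) = 1 := by
    rw [hY, Pi.single_eq_same]
  have Y3 : Y (ix k 3) = 0 := by
    rw [hY, Pi.single_eq_of_ne (by rw [Ne, ix_inj]; decide)]
  have Y4 : ∀ j : Fin (k + 4), 3 < (j : ℕ) → Y j = 0 := by
    intro j hj
    rw [hY, Pi.single_eq_of_ne (ix_ne k _ hj)]
  have hXX : famProd k q X X = 0 := by
    apply fam_ext
    · simp [fam0, X0]
    · simp [fam1, X0]
    · simp [fam2, X0]
    · simp [fam3, X0, X2]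
    · intro j hj
      simp [fam4 k q _ _ hj, X4 j hj]
  have hYY : famProd k q Y Y = 0 := by
    apply fam_ext
    · simp [fam0, Y0]
    · simp [fam1, Y0]
    · simp [fam2, Y0]
    · simp [fam3, Y0, Y1]
    · intro j hj
      simp [fam4 k q _ _ hj, Y4 j hj]
  have hYX : famProd k q Y X = q • famProd k q X Y := by
    apply fam_ext
    · simp [fam0, X0]
    · simp [fam1, X0, Y0]
    · simp [fam2, X0, Y0]
    · simp [fam3, X0, Y0, X1, X2, Y1, Y2]
    · intro j hj
      simp [fam4 k q _ _ hj, X4 j hj]
  have hXY : famProd k q X Y ≠ 0 := by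
    intro h
    have := congrFun h (ix k 3)
    rw [fam3, X0, Y0, X1, X2, Y2] at this
    simp at this
  obtain ⟨x, hx⟩ : ∃ x, x = f X := ⟨_, rfl⟩
  obtain ⟨y, hy⟩ : ∃ y, y = f Y := ⟨_, rfl⟩
  have kx : ∀ w : Fin (k + 4) → F, famProd k q' w w = 0 → w (ix k 0) = 0 ∧
      w (ix k 1) * w (ix k 2) = 0 ∧ ∀ j : Fin (k + 4), 3 < (j : ℕ) → w j = 0 := by
    intro w hw
    have h0 := congrFun hw (ix k 0)
    have h3 := congrFun hw (ix k 3)
    rw [fam0, Pi.zero_apply, mul_self_eq_zero] at h0
    rw [fam3, Pi.zero_apply, h0] at h3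
    refine ⟨h0, ?_, ?_⟩
    · have : (1 + q') * (w (ix k 1) * w (ix k 2)) = 0 := by linear_combination h3
      exact (mul_eq_zero.1 this).resolve_left hq
    · intro j hj
      have h := congrFun hw j
      rwa [fam4 k q' _ _ hj, Pi.zero_apply, mul_self_eq_zero] at h
  obtain ⟨x0, x12, xj⟩ := kx x (by rw [hx, ← hf, hXX, map_zero])
  obtain ⟨y0, y12, yj⟩ := kx y (by rw [hy, ← hf, hYY, map_zero])
  have hyx : famProd k q' y x = q • famProd k q' x y := by
    rw [hx, hy, ← hf, ← hf, hYX, map_smul]
  have hxy : famProd k q' x y ≠ 0 := by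
    intro h
    apply hXY
    apply f.injective
    rw [hf, map_zero, ← hx, ← hy]
    exact h
  have h3 := congrFun hyx (ix k 3)
  rw [Pi.smul_apply, fam3, fam3, x0, y0, smul_eq_mul] at h3
  have hne : x (ix k 1) * y (ix k 2) + q' * (x (ix k 2) * y (ix k 1)) ≠ 0 := by
    intro h
    apply hxy
    apply fam_ext
    · simp [fam0, x0]
    · simp [fam1, x0, y0]
    · simp [fam2, x0, y0]
    · rw [fam3, x0, y0, Pi.zero_apply]
      linear_combination h
    · intro j hj
      simp [fam4 k q' _ _ hj, xj j hj]
  rcases mul_eq_zero.1 x12 with h1 | h1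
  · rw [h1] at h3 hne
    have h4 : x (ix k 2) * y (ix k 1) ≠ 0 := by
      intro h
      apply hne
      rw [h]
      ring
    have h5 : (q * q' - 1) * (x (ix k 2) * y (ix k 1)) = 0 := by linear_combination -h3
    exact hqq' (sub_eq_zero.1 ((mul_eq_zero.1 h5).resolve_right h4))
  · rw [h1] at h3 hne
    have h4 : x (ix k 1) * y (ix k 2) ≠ 0 := by
      intro h
      apply hne
      rw [h]
      ring
    have h5 : (q - q') * (x (ix k 1) * y (ix k 2)) = 0 := by linear_combination -h3
    exact hqq (sub_eq_zero.1 ((mul_eq_zero.1 h5).resolve_right h4))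

/-- For every weight and every size at least `5` there are infinitely many inequivalent operators. -/
theorem infinitely_many [CharZero F] (lam : F) (n : ℕ) (hn : 4 ≤ n) :
    ∃ R : ℕ → (Matrix (Fin (n + 1)) (Fin (n + 1)) F →ₗ[F] Matrix (Fin (n + 1)) (Fin (n + 1)) F),
      (∀ k, IsRotaBaxter lam (R k) ∧ KillsParabolic (R k)) ∧
      ∀ k l, k ≠ l → ¬ Equivalent (R k) (R l) := by
  obtain ⟨k, rfl⟩ : ∃ k, n = k + 4 := ⟨n - 4, by omega⟩
  let q : ℕ → F := fun i => (i : F) + 2
  let iR : ∀ i, NonUnitalRing (DatumAlg (famProd k (q i))) :=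
    fun i => datumRing _ (fam_assoc k (q i))
  let iM : ∀ i, Module F (DatumAlg (famProd k (q i))) := fun i => datumModule _
  have iT : ∀ i, IsScalarTower F (DatumAlg (famProd k (q i))) (DatumAlg (famProd k (q i))) :=
    fun i => ⟨fun a x y => (famProd k (q i)).map_smul₂ a x y⟩
  have iC : ∀ i, SMulCommClass F (DatumAlg (famProd k (q i))) (DatumAlg (famProd k (q i))) :=
    fun i => ⟨fun a x y => ((famProd k (q i) x).map_smul a y).symm⟩
  let b : ∀ i, Basis (Fin (k + 4)) F (DatumAlg (famProd k (q i))) := fun i => Pi.basisFun F _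
  have hfaith : ∀ i, ∀ s : DatumAlg (famProd k (q i)),
      (∀ x : DatumAlg (famProd k (q i)), x * s = 0) → s = 0 := by
    intro i s hs
    have h1 : famProd k (q i) (famOne F k) s = 0 := hs (show DatumAlg (famProd k (q i)) from famOne F k)
    rw [fam_one] at h1
    exact h1
  refine ⟨fun i => op lam (b i), fun i => ⟨op_rotaBaxter lam (b i), op_kills lam (b i)⟩,
    fun i j hij he => ?_⟩
  obtain ⟨f, hf⟩ := iso_of_equivalent lam (b i) (b j) (Or.inr (hfaith i)) (Or.inr (hfaith j)) he
  refine fam_noniso k (q := q i) (q' := q j) ?_ ?_ ?_ f hf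
  · change 1 + ((j : F) + 2) ≠ 0
    have : ((j + 3 : ℕ) : F) ≠ 0 := Nat.cast_ne_zero.2 (by omega)
    intro h
    apply this
    push_cast
    linear_combination h
  · change (i : F) + 2 ≠ (j : F) + 2
    intro h
    exact hij (Nat.cast_injective (R := F) (by linear_combination h))
  · change ((i : F) + 2) * ((j : F) + 2) ≠ 1
    have : (((i + 2) * (j + 2) : ℕ) : F) ≠ ((1 : ℕ) : F) := by
      intro h
      have := Nat.cast_injective (R := F) h
      nlinarith
    intro h
    apply this
    push_cast
    exact h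

end family

section final

variable {F : Type} [Field F] {n : ℕ}

/-- the first `n` entries of the last row of `X` -/
def row (X : Matrix (Fin (n + 1)) (Fin (n + 1)) F) : Fin n → F := fun j => X (Fin.last n) j.castSucc

theorem bm_add (lam : F) (m : (Fin n → F) →ₗ[F] (Fin n → F) →ₗ[F] (Fin n → F))
    (X Y : Matrix (Fin (n + 1)) (Fin (n + 1)) F) :
    blockMatrix lam m 0 0 (row (X + Y)) =
      blockMatrix lam m 0 0 (row X) + blockMatrix lam m 0 0 (row Y) := by
  have h : row (X + Y) = row X + row Y := rfl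
  ext i j
  refine Fin.lastCases ?_ (fun j' => ?_) j
  · refine Fin.lastCases ?_ (fun i' => ?_) i
    · simp [bm_ll]
    · simp [bm_cl]
  · refine Fin.lastCases ?_ (fun i' => ?_) i
    · simp [bm_lc, mul_add, h]
    · rw [Matrix.add_apply, bm_cc, bm_cc, bm_cc, h, map_add]
      simp

theorem bm_smul (lam : F) (m : (Fin n → F) →ₗ[F] (Fin n → F) →ₗ[F] (Fin n → F)) (a : F)
    (X : Matrix (Fin (n + 1)) (Fin (n + 1)) F) :
    blockMatrix lam m 0 0 (row (a • X)) = a • blockMatrix lam m 0 0 (row X) := by
  have h : row (a • X) = a • row X := rfl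
  ext i j
  refine Fin.lastCases ?_ (fun j' => ?_) j
  · refine Fin.lastCases ?_ (fun i' => ?_) i
    · simp [bm_ll]
    · simp [bm_cl]
  · refine Fin.lastCases ?_ (fun i' => ?_) i
    · simp [bm_lc, h]
      ring
    · rw [Matrix.smul_apply, bm_cc, bm_cc, h, map_smul]
      simp

/-- The operator `X ↦ [[rho(c), 0], [-lam c, 0]]`, where `(c, *)` is the last row of `X` and `rho(c)` is
the matrix of the right multiplication by `c` with respect to the product `m` on `F^n`. -/
def algOp (lam : F) (m : (Fin n → F) →ₗ[F] (Fin n → F) →ₗ[F] (Fin n → F)) :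
    Matrix (Fin (n + 1)) (Fin (n + 1)) F →ₗ[F] Matrix (Fin (n + 1)) (Fin (n + 1)) F where
  toFun X := blockMatrix lam m 0 0 (row X)
  map_add' X Y := bm_add lam m X Y
  map_smul' a X := bm_smul lam m a X

theorem datum_zero (lam : F) {m : (Fin n → F) →ₗ[F] (Fin n → F) →ₗ[F] (Fin n → F)}
    (h : ∀ x y z, m (m x y) z = m x (m y z)) : IsDatum lam m 0 0 :=
  ⟨h, fun _ _ => by simp, fun _ _ _ => by simp⟩

theorem algOp_eq_op (lam : F) {m : (Fin n → F) →ₗ[F] (Fin n → F) →ₗ[F] (Fin n → F)}
    (h : ∀ x y z, m (m x y) z = m x (m y z)) :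
    let _iR : NonUnitalRing (DatumAlg m) := datumRing m h
    let _iM : Module F (DatumAlg m) := datumModule m
    ∀ (_iT : IsScalarTower F (DatumAlg m) (DatumAlg m))
      (_iC : SMulCommClass F (DatumAlg m) (DatumAlg m)) (b : Basis (Fin n) F (DatumAlg m)),
      (∀ s : DatumAlg m, ∀ j, b.repr s j = (s : Fin n → F) j) →
      (∀ i, (b i : Fin n → F) = Pi.single i 1) →
      op lam b = algOp lam m := by
  intro iR iM iT iC b hrepr hb
  ext1 X
  have h5 : (fun j => X (Fin.last n) j.castSucc) = (lastRow b X : Fin n → F) := by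
    funext j
    have := repr_lastRow b X j
    rw [hrepr] at this
    exact this.symm
  change emb lam b (lastRow b X) = blockMatrix lam m 0 0 (fun j => X (Fin.last n) j.castSucc)
  rw [h5]
  obtain ⟨s, hs⟩ : ∃ s : DatumAlg m, s = lastRow b X := ⟨_, rfl⟩
  rw [← hs]
  have hmul : ∀ i : Fin n, (b i * s : DatumAlg m) = m (Pi.single i 1) s := by
    intro i
    change m (b i) s = _
    rw [hb]
  ext i j
  refine Fin.lastCases ?_ (fun j' => ?_) j
  · refine Fin.lastCases ?_ (fun i' => ?_) i
    · rw [emb_last, bm_ll]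
      rfl
    · rw [emb_last, bm_cl]
      rfl
  · refine Fin.lastCases ?_ (fun i' => ?_) i
    · rw [emb_row, bm_lc, hrepr]
    · rw [emb_cs, bm_cc, hrepr, hmul]
      simp

theorem algOp_kills (lam : F) (m : (Fin n → F) →ₗ[F] (Fin n → F) →ₗ[F] (Fin n → F)) :
    KillsParabolic (algOp lam m) := by
  intro X hX
  have : (fun j : Fin n => X (Fin.last n) j.castSucc) = 0 := funext hX
  change blockMatrix lam m 0 0 (fun j => X (Fin.last n) j.castSucc) = 0
  rw [this]
  ext i j
  refine Fin.lastCases ?_ (fun j' => ?_) j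
  · refine Fin.lastCases ?_ (fun i' => ?_) i
    · simp [bm_ll]
    · simp [bm_cl]
  · refine Fin.lastCases ?_ (fun i' => ?_) i
    · simp [bm_lc]
    · simp [bm_cc]

theorem parabolic_iff (lam : F)
    (R : Matrix (Fin (n + 1)) (Fin (n + 1)) F →ₗ[F] Matrix (Fin (n + 1)) (Fin (n + 1)) F)
    (hP : KillsParabolic R) :
    IsRotaBaxter lam R ↔ R = 0 ∨
      ∃ (m : (Fin n → F) →ₗ[F] (Fin n → F) →ₗ[F] (Fin n → F)) (del : (Fin n → F) →ₗ[F] F)
        (B : (Fin n → F) →ₗ[F] (Fin n → F) →ₗ[F] F), IsDatum lam m del B ∧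
        ∀ X, R X = blockMatrix lam m del B (fun j => X (Fin.last n) j.castSucc) := by
  constructor
  · intro hR
    by_cases h0 : R = 0
    · exact Or.inl h0
    · exact Or.inr (datum_of_rotaBaxter hR hP h0)
  · rintro (h0 | ⟨m, del, B, hD, hX⟩)
    · rw [h0]
      intro X Y
      simp
    · exact rotaBaxter_of_datum lam m del B hD R hX

theorem algOp_classify (lam : F) {m m' : (Fin n → F) →ₗ[F] (Fin n → F) →ₗ[F] (Fin n → F)}
    (h : ∀ x y z, m (m x y) z = m x (m y z)) (h' : ∀ x y z, m' (m' x y) z = m' x (m' y z))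
    (hf : lam ≠ 0 ∨ ((∀ s, (∀ x, m x s = 0) → s = 0) ∧ ∀ s, (∀ x, m' x s = 0) → s = 0)) :
    Equivalent (algOp lam m) (algOp lam m') ↔
      ∃ f : (Fin n → F) ≃ₗ[F] (Fin n → F), ∀ x y, f (m x y) = m' (f x) (f y) := by
  let iR : NonUnitalRing (DatumAlg m) := datumRing m h
  let iM : Module F (DatumAlg m) := datumModule m
  have iT : IsScalarTower F (DatumAlg m) (DatumAlg m) := ⟨fun a x y => m.map_smul₂ a x y⟩
  have iC : SMulCommClass F (DatumAlg m) (DatumAlg m) := ⟨fun a x y => ((m x).map_smul a y).symm⟩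
  let b : Basis (Fin n) F (DatumAlg m) := Pi.basisFun F (Fin n)
  let iR' : NonUnitalRing (DatumAlg m') := datumRing m' h'
  let iM' : Module F (DatumAlg m') := datumModule m'
  have iT' : IsScalarTower F (DatumAlg m') (DatumAlg m') := ⟨fun a x y => m'.map_smul₂ a x y⟩
  have iC' : SMulCommClass F (DatumAlg m') (DatumAlg m') :=
    ⟨fun a x y => ((m' x).map_smul a y).symm⟩
  let b' : Basis (Fin n) F (DatumAlg m') := Pi.basisFun F (Fin n)
  rw [← algOp_eq_op lam h iT iC b (fun _ _ => rfl) (fun i => Pi.basisFun_apply F (Fin n) i),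
    ← algOp_eq_op lam h' iT' iC' b' (fun _ _ => rfl) (fun i => Pi.basisFun_apply F (Fin n) i)]
  constructor
  · intro he
    exact iso_of_equivalent lam b b' (hf.imp id And.left) (hf.imp id And.right) he
  · rintro ⟨f, hf⟩
    exact equivalent_of_iso lam b b' f hf

theorem algOp_image (lam : F) {m : (Fin n → F) →ₗ[F] (Fin n → F) →ₗ[F] (Fin n → F)}
    (h : ∀ x y z, m (m x y) z = m x (m y z))
    (hf : lam ≠ 0 ∨ (∀ s, (∀ x, m x s = 0) → s = 0)) :
    ∃ ι : (Fin n → F) →ₗ[F] Matrix (Fin (n + 1)) (Fin (n + 1)) F, Function.Injective ι ∧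
      (∀ x y, ι (m x y) = ι x * ι y) ∧ LinearMap.range ι = LinearMap.range (algOp lam m) := by
  let iR : NonUnitalRing (DatumAlg m) := datumRing m h
  let iM : Module F (DatumAlg m) := datumModule m
  have iT : IsScalarTower F (DatumAlg m) (DatumAlg m) := ⟨fun a x y => m.map_smul₂ a x y⟩
  have iC : SMulCommClass F (DatumAlg m) (DatumAlg m) := ⟨fun a x y => ((m x).map_smul a y).symm⟩
  let b : Basis (Fin n) F (DatumAlg m) := Pi.basisFun F (Fin n)
  rw [← algOp_eq_op lam h iT iC b (fun _ _ => rfl) (fun i => Pi.basisFun_apply F (Fin n) i)]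
  let e : DatumAlg m →ₗ[F] Matrix (Fin (n + 1)) (Fin (n + 1)) F := emb lam b
  exact ⟨e, emb_injective lam b hf, fun x y => (emb_mul lam b x y).symm, (range_op lam b).symm⟩

/-- For nonzero weight, every nonzero Rota–Baxter operator killing the parabolic subalgebra is
equivalent to the operator of an associative algebra. -/
theorem equivalent_op_of_kills {lam : F} (hl : lam ≠ 0)
    {R : Matrix (Fin (n + 1)) (Fin (n + 1)) F →ₗ[F] Matrix (Fin (n + 1)) (Fin (n + 1)) F}
    (hR : IsRotaBaxter lam R) (hP : KillsParabolic R) (h0 : R ≠ 0) :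
    ∃ m : (Fin n → F) →ₗ[F] (Fin n → F) →ₗ[F] (Fin n → F),
      (∀ x y z, m (m x y) z = m x (m y z)) ∧ Equivalent R (algOp lam m) := by
  classical
  obtain ⟨m, del, B, hD, hRX⟩ := datum_of_rotaBaxter hR hP h0
  let iR : NonUnitalRing (DatumAlg m) := datumRing m hD.assoc
  let iM : Module F (DatumAlg m) := datumModule m
  have iT : IsScalarTower F (DatumAlg m) (DatumAlg m) :=
    ⟨fun a x y => m.map_smul₂ a x y⟩
  have iC : SMulCommClass F (DatumAlg m) (DatumAlg m) :=
    ⟨fun a x y => ((m x).map_smul a y).symm⟩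
  let b : Basis (Fin n) F (DatumAlg m) := Pi.basisFun F (Fin n)
  have hrepr : ∀ (s : DatumAlg m) (j : Fin n), b.repr s j = (s : Fin n → F) j := fun s j => rfl
  have hb : ∀ i : Fin n, (b i : Fin n → F) = Pi.single i 1 := fun i => Pi.basisFun_apply F (Fin n) i
  refine ⟨m, hD.assoc, ?_⟩
  rw [← algOp_eq_op lam hD.assoc iT iC b (fun _ _ => rfl) hb]
  let t : Fin n → F := fun j => lam⁻¹ * del (Pi.single j 1)
  let N : Matrix (Fin (n + 1)) (Fin (n + 1)) F := Matrix.of fun i j =>
    if j = Fin.last n then Fin.lastCases (motive := fun _ => F) 0 (fun i' => t i') i else 0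
  have hNl : ∀ j, N (Fin.last n) j = 0 := by
    intro j
    simp [N]
  have hNc : ∀ (i : Fin (n + 1)) (j : Fin n), N i j.castSucc = 0 := by
    intro i j
    simp [N, (Fin.castSucc_lt_last j).ne]
  have hNt : ∀ i : Fin n, N i.castSucc (Fin.last n) = t i := by
    intro i
    simp [N]
  have hNN : N * N = 0 := by
    ext i j
    rw [Matrix.mul_apply, Fin.sum_univ_castSucc]
    simp [hNl, hNc]
  have h1 : (1 + N) * (1 - N) = 1 := by
    rw [add_mul, one_mul, mul_sub, mul_one, hNN]
    abel
  have h2 : (1 - N) * (1 + N) = 1 := by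
    rw [sub_mul, one_mul, mul_add, mul_one, hNN]
    abel
  let φ : Matrix (Fin (n + 1)) (Fin (n + 1)) F ≃ₐ[F] Matrix (Fin (n + 1)) (Fin (n + 1)) F :=
    { toFun := fun X => (1 - N) * X * (1 + N)
      invFun := fun X => (1 + N) * X * (1 - N)
      left_inv := fun X => by
        change (1 + N) * ((1 - N) * X * (1 + N)) * (1 - N) = X
        rw [show (1 + N) * ((1 - N) * X * (1 + N)) * (1 - N) =
          ((1 + N) * (1 - N)) * X * ((1 + N) * (1 - N)) by simp only [mul_assoc], h1, one_mul,
          mul_one]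
      right_inv := fun X => by
        change (1 - N) * ((1 + N) * X * (1 - N)) * (1 + N) = X
        rw [show (1 - N) * ((1 + N) * X * (1 - N)) * (1 + N) =
          ((1 - N) * (1 + N)) * X * ((1 - N) * (1 + N)) by simp only [mul_assoc], h2, one_mul,
          mul_one]
      map_mul' := fun X Y => by
        rw [show (1 - N) * X * (1 + N) * ((1 - N) * Y * (1 + N)) =
          (1 - N) * X * ((1 + N) * (1 - N)) * Y * (1 + N) by simp only [mul_assoc], h1, mul_one]
        simp only [mul_assoc]
      map_add' := fun X Y => by rw [mul_add (1 - N) X Y, add_mul]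
      commutes' := fun a => by
        rw [← Algebra.commutes, mul_assoc, h2, mul_one] }
  refine ⟨1, one_ne_zero, φ, fun X => ?_⟩
  rw [one_smul]
  change (1 - N) * R X * (1 + N) = emb lam b (lastRow b ((1 - N) * X * (1 + N)))
  have h3 : lastRow b ((1 - N) * X * (1 + N)) = lastRow b X := by
    apply b.repr.injective
    ext j
    rw [repr_lastRow, repr_lastRow]
    have e1 : ∀ k, ((1 - N) * X) (Fin.last n) k = X (Fin.last n) k := by
      intro k
      rw [sub_mul, one_mul, Matrix.sub_apply, Matrix.mul_apply]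
      simp [hNl]
    rw [mul_add, mul_one, Matrix.add_apply, e1, Matrix.mul_apply]
    simp [hNc]
  rw [h3]
  have h4 : ∀ s : DatumAlg m, blockMatrix lam m del B s * (1 + N) = (1 + N) * emb lam b s := by
    intro s
    have hmul : ∀ i : Fin n, (b i * s : DatumAlg m) = m (Pi.single i 1) s := by
      intro i
      change m (b i) s = _
      rw [hb]
    rw [mul_add, mul_one, add_mul, one_mul]
    ext i j
    rw [Matrix.add_apply, Matrix.add_apply, Matrix.mul_apply, Matrix.mul_apply,
      Fin.sum_univ_castSucc, Fin.sum_univ_castSucc]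
    refine Fin.lastCases ?_ (fun j' => ?_) j
    · refine Fin.lastCases ?_ (fun i' => ?_) i
      · simp only [emb_last, hNl, hNt, mul_zero, bm_ll, bm_lc, Finset.sum_const_zero, add_zero]
        have e1 : ∑ x, -lam * s x * t x = -del s := by
          rw [← lin_sum del s, ← Finset.sum_neg_distrib]
          refine Finset.sum_congr rfl fun x _ => ?_
          change -lam * s x * (lam⁻¹ * del (Pi.single x 1)) = _
          field_simp
        rw [e1]
        ring
      · simp only [emb_last, hNl, hNt, mul_zero, bm_cl, bm_cc, Finset.sum_const_zero, add_zero]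
        have e1 : ∑ x, (m (Pi.single i' 1) s x - del (Pi.single i' 1) * s x) * t x =
            lam⁻¹ * (del (m (Pi.single i' 1) s) - del (Pi.single i' 1) * del s) := by
          rw [← lin_sum del s, ← lin_sum del (m (Pi.single i' 1) s), Finset.mul_sum,
            ← Finset.sum_sub_distrib, Finset.mul_sum]
          refine Finset.sum_congr rfl fun x _ => ?_
          change _ * (lam⁻¹ * del (Pi.single x 1)) = _
          ring
        rw [e1, hD.mul]
        field_simp
        ring
    · simp only [hNc, mul_zero, Finset.sum_const_zero, add_zero]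
      refine Fin.lastCases ?_ (fun i' => ?_) i
      · simp only [bm_lc, emb_row, hNl, zero_mul, Finset.sum_const_zero, add_zero, hrepr]
      · simp only [bm_cc, emb_cs, emb_row, hNt, zero_mul, Finset.sum_const_zero, zero_add]
        rw [hrepr, hrepr, hmul]
        change _ = _ + lam⁻¹ * del (Pi.single i' 1) * (-lam * s j')
        field_simp
        ring
  have h5 : R X = blockMatrix lam m del B (lastRow b X : DatumAlg m) := by
    rw [hRX]
    congr 1
    funext j
    have := repr_lastRow b X j
    rw [hrepr] at this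
    exact this.symm
  rw [h5, mul_assoc, h4, ← mul_assoc, h2, one_mul]

end final

/-- Linear operators on `M_n(F)`. -/
abbrev Op (F : Type) [Field F] (n : ℕ) : Type :=
  Matrix (Fin n) (Fin n) F →ₗ[F] Matrix (Fin n) (Fin n) F

/-- Only `s = 0` is killed by all left multiplications. -/
def IsFaithful {F : Type} [Field F] {n : ℕ} (m : Product F n) : Prop :=
  ∀ s, (∀ x, m x s = 0) → s = 0

/-- The algebras `(F^n, m)` and `(F^n, m')` are isomorphic. -/
def IsIso {F : Type} [Field F] {n : ℕ} (m m' : Product F n) : Prop :=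
  ∃ f : (Fin n → F) ≃ₗ[F] (Fin n → F), ∀ x y, f (m x y) = m' (f x) (f y)

/-- The image of `R` is the image of an injective algebra homomorphism `(F^n, m) → M_N(F)`. -/
def ImageIs {F : Type} [Field F] {n N : ℕ} (R : Op F N) (m : Product F n) : Prop :=
  ∃ ι : (Fin n → F) →ₗ[F] Matrix (Fin N) (Fin N) F, Function.Injective ι ∧
    (∀ x y, ι (m x y) = ι x * ι y) ∧ LinearMap.range ι = LinearMap.range R

/-- `R X = blockMatrix lam m del B c` for a datum `(m, del, B)`, where `(c, *)` is the last row of `X`. -/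
def FromDatum {F : Type} [Field F] {n : ℕ} (lam : F) (R : Op F (n + 1)) : Prop :=
  ∃ (m : Product F n) (del : (Fin n → F) →ₗ[F] F) (B : (Fin n → F) →ₗ[F] (Fin n → F) →ₗ[F] F),
    IsDatum lam m del B ∧ ∀ X, R X = blockMatrix lam m del B (row X)

end Pool.Agent.J6H23.RB
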