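import Pool.Agent.J6H23.RB.Core

/-!
# MP_ba7cc7_al: the Rota–Baxter operators of nonzero weight that kill the diagonal

They are, up to the factor `-lam`, the projections onto a subalgebra `V` of `M_n(F)` along the incidence
algebra `K` of a preorder on `{1, …, n}`, where `V` is a complement of `K`.
-/

set_option autoImplicit false

open Matrix Module Pool.Agent.J6H23.RB

namespace Pool.Agent.J6H23.RB.KillsDiagonal

theorem result (F : Type) [Field F] [CharZero F] (n : ℕ) (lam : F) (hl : lam ≠ 0)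
    (R : Matrix (Fin n) (Fin n) F →ₗ[F] Matrix (Fin n) (Fin n) F) :
    (IsRotaBaxter lam R ∧ ∀ d, R (diagonal d) = 0) ↔
      ∃ (r : Fin n → Fin n → Prop) (V K : Submodule F (Matrix (Fin n) (Fin n) F)),
        (∀ i, r i i) ∧ (∀ i j k, r i j → r j k → r i k) ∧
        (∀ X, X ∈ K ↔ ∀ i j, ¬ r i j → X i j = 0) ∧
        (∀ X ∈ V, ∀ Y ∈ V, X * Y ∈ V) ∧ IsCompl V K ∧
        (∀ X ∈ V, R X = -lam • X) ∧ (∀ X ∈ K, R X = 0) :=
  kills_diagonal_iff hl R

end Pool.Agent.J6H23.RB.KillsDiagonal
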