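import Pool.Agent.J6H23.RB.Core

/-!
# Rota–Baxter operators of nonzero weight preserving the diagonal
-/

set_option autoImplicit false

namespace Pool.Agent.J6H23.RB

open Matrix Module

section subalgebras

set_option linter.unusedSectionVars false

variable {F P : Type} [Field F] [Fintype P] (S : Submodule F (P → F))
  (hS : ∀ s ∈ S, ∀ t ∈ S, s * t ∈ S)

/-- the points at which all elements of `S` take the same value as at `p` -/
def cls (p : P) : Set P := {p' | ∀ s ∈ S, s p' = s p}

/-- all elements of `S` vanish at `p` -/
def IsZero (p : P) : Prop := ∀ s ∈ S, s p = 0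

/-- the classes of the points at which not all elements of `S` vanish -/
def Classes : Type := {A : Set P // ∃ p, ¬ IsZero S p ∧ A = cls S p}

open scoped Classical in
/-- the class of a point -/
noncomputable def cl (p : P) : Option (Classes S) :=
  if h : IsZero S p then none else some ⟨cls S p, p, h, rfl⟩

noncomputable instance : Fintype (Classes S) := by
  classical
  unfold Classes
  infer_instance

theorem cl_zero {p : P} (h : IsZero S p) : cl S p = none := by
  unfold cl
  rw [dif_pos h]

theorem cl_some {p : P} (h : ¬ IsZero S p) : cl S p = some ⟨cls S p, p, h, rfl⟩ := by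
  unfold cl
  rw [dif_neg h]

theorem cl_surj (q : Classes S) : ∃ p, cl S p = some q := by
  obtain ⟨A, p, hp, rfl⟩ := q
  exact ⟨p, cl_some S hp⟩

theorem val_zero {p : P} (h : cl S p = none) (s : P → F) (hs : s ∈ S) : s p = 0 := by
  by_cases hz : IsZero S p
  · exact hz s hs
  · rw [cl_some S hz] at h
    exact absurd h (by simp)

theorem val_eq {p p' : P} (h : cl S p = cl S p') (s : P → F) (hs : s ∈ S) : s p = s p' := by
  by_cases hz : IsZero S p
  · rw [cl_zero S hz] at h
    rw [hz s hs, val_zero S h.symm s hs]
  · by_cases hz' : IsZero S p'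
    · rw [cl_zero S hz'] at h
      rw [hz' s hs, val_zero S h s hs]
    · rw [cl_some S hz, cl_some S hz'] at h
      have h1 : cls S p = cls S p' := congrArg Subtype.val (Option.some.inj h)
      have h2 : p ∈ cls S p := fun _ _ => rfl
      rw [h1] at h2
      exact h2 s hs

include hS in
theorem exists_sep {p : P} (hp : ¬ IsZero S p) (T : Finset P) (hT : ∀ q ∈ T, q ∉ cls S p) :
    ∃ s ∈ S, s p = 1 ∧ ∀ q ∈ T, s q = 0 := by
  classical
  induction T using Finset.induction_on with
  | empty =>
    unfold IsZero at hp
    push Not at hp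
    obtain ⟨s, hs, hsp⟩ := hp
    refine ⟨(s p)⁻¹ • s, S.smul_mem _ hs, ?_, by simp⟩
    rw [Pi.smul_apply, smul_eq_mul, inv_mul_cancel₀ hsp]
  | insert q T hq ih =>
    obtain ⟨s, hs, hsp, hsT⟩ := ih (fun q' hq' => hT q' (Finset.mem_insert_of_mem hq'))
    have h1 := hT q (Finset.mem_insert_self q T)
    unfold cls at h1
    rw [Set.mem_ofPred_eq] at h1
    push Not at h1
    obtain ⟨w, hw, hwq⟩ := h1
    refine ⟨(w p - w q)⁻¹ • (s * w - w q • s),
      S.smul_mem _ (S.sub_mem (hS s hs w hw) (S.smul_mem _ hs)), ?_, ?_⟩
    · rw [Pi.smul_apply, Pi.sub_apply, Pi.mul_apply, Pi.smul_apply, hsp, smul_eq_mul, smul_eq_mul,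
        one_mul, mul_one, inv_mul_cancel₀ (sub_ne_zero.2 (Ne.symm hwq))]
    · intro q' hq'
      rw [Pi.smul_apply, Pi.sub_apply, Pi.mul_apply, Pi.smul_apply, smul_eq_mul, smul_eq_mul]
      rcases Finset.mem_insert.1 hq' with h | h
      · rw [h]
        ring
      · rw [hsT q' h]
        ring

open scoped Classical in
include hS in
theorem ind_mem (q : Classes S) : (fun p => if cl S p = some q then (1 : F) else 0) ∈ S := by
  obtain ⟨A, p, hp, rfl⟩ := q
  obtain ⟨s, hs, hsp, hsT⟩ := exists_sep S hS hp (Finset.univ.filter fun q => q ∉ cls S p)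
    (fun q hq => (Finset.mem_filter.1 hq).2)
  have : (fun p' => if cl S p' = some ⟨cls S p, p, hp, rfl⟩ then (1 : F) else 0) = s := by
    funext p'
    split_ifs with h
    · rw [← cl_some S hp] at h
      rw [val_eq S h s hs, hsp]
    · by_cases h1 : p' ∈ cls S p
      · exfalso
        apply h
        have h2 : ¬ IsZero S p' := by
          intro h3
          have h4 := h1 s hs
          rw [h3 s hs, hsp] at h4
          exact zero_ne_one h4
        rw [cl_some S h2]
        congr 1
        apply Subtype.ext
        change cls S p' = cls S p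
        ext p''
        unfold cls at h1 ⊢
        simp only [Set.mem_ofPred_eq] at h1 ⊢
        exact ⟨fun h5 t ht => (h5 t ht).trans (h1 t ht), fun h5 t ht => (h5 t ht).trans (h1 t ht).symm⟩
      · exact (hsT p' (Finset.mem_filter.2 ⟨Finset.mem_univ _, h1⟩)).symm
  rw [this]
  exact hs

include hS in
theorem finrank_eq : finrank F S = Fintype.card (Classes S) := by
  classical
  choose rep hrep using cl_surj S
  let φ : S →ₗ[F] (Classes S → F) :=
    { toFun := fun s q => (s : P → F) (rep q)
      map_add' := fun _ _ => rfl
      map_smul' := fun _ _ => rfl }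
  have hφ : ∀ (s : S) q, φ s q = (s : P → F) (rep q) := fun _ _ => rfl
  have hbij : Function.Bijective φ := by
    constructor
    · rw [injective_iff_map_eq_zero]
      intro s hs
      apply Subtype.ext
      funext p
      rcases h : cl S p with _ | q
      · exact val_zero S h s s.2
      · rw [val_eq S (p' := rep q) (by rw [h, hrep]) s s.2, ← hφ, hs]
        rfl
    · intro g
      refine ⟨⟨∑ q, g q • (fun p => if cl S p = some q then (1 : F) else 0),
        S.sum_mem fun q _ => S.smul_mem _ (ind_mem S hS q)⟩, ?_⟩
      funext q'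
      rw [hφ]
      simp only [Finset.sum_apply, Pi.smul_apply, smul_eq_mul, hrep, Option.some.injEq, mul_ite,
        mul_one, mul_zero]
      rw [Finset.sum_ite_eq]
      simp
  rw [(LinearEquiv.ofBijective φ hbij).finrank_eq, Module.finrank_fintype_fun_eq_card]

end subalgebras

section tree

variable {F : Type} [Field F] {n : ℕ}

/-- `h` and `t` are the head and tail maps of an oriented tree with the `n + 1` vertices
`Option (Fin n)`, whose `n` edges are the elements of `Fin n`: a function of the vertices which vanishes
at the root `none` and takes equal values at the two ends of every edge is zero. -/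
def IsRootedTree (F : Type) [Field F] {n : ℕ} (h t : Fin n → Option (Fin n)) : Prop :=
  ∀ f : Option (Fin n) → F, f none = 0 → (∀ i, f (h i) = f (t i)) → ∀ v, f v = 0

/-- the diagonal idempotent of the edges `i` with `h i = v` -/
def vertexIdem (F : Type) [Field F] {n : ℕ} (h : Fin n → Option (Fin n)) (v : Fin n) :
    Matrix (Fin n) (Fin n) F :=
  diagonal fun i => if h i = some v then 1 else 0

theorem elim_add (o : Option (Fin n)) (c c' : Fin n → F) :
    o.elim 0 (c + c') = o.elim 0 c + o.elim 0 c' := by
  rcases o with _ | a <;> simp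

theorem elim_smul (o : Option (Fin n)) (a : F) (c : Fin n → F) :
    o.elim 0 (a • c) = a * o.elim 0 c := by
  rcases o with _ | b <;> simp

theorem preserves_iff {lam : F} (hl : lam ≠ 0)
    (R : Matrix (Fin n) (Fin n) F →ₗ[F] Matrix (Fin n) (Fin n) F) :
    (IsRotaBaxter lam R ∧ PreservesDiagonal R) ↔
      ∃ (h t : Fin n → Option (Fin n))
        (B : Submodule F (Matrix (Fin n) (Fin n) F × Matrix (Fin n) (Fin n) F)),
        IsRootedTree F h t ∧ (∀ v, (vertexIdem F h v, vertexIdem F t v) ∈ B) ∧
        (∀ X ∈ B, ∀ Y ∈ B, X * Y ∈ B) ∧ (∀ Z, (Z, Z) ∈ B → Z = 0) ∧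
        ∀ X, (R X, R X + lam • X) ∈ B := by
  classical
  constructor
  · rintro ⟨hR, hd⟩
    let β : Matrix (Fin n) (Fin n) F →ₗ[F] Matrix (Fin n) (Fin n) F × Matrix (Fin n) (Fin n) F :=
      R.prod (R + lam • LinearMap.id)
    have hβ : ∀ X, β X = (R X, R X + lam • X) := fun _ => rfl
    have hmul : ∀ X ∈ LinearMap.range β, ∀ Y ∈ LinearMap.range β, X * Y ∈ LinearMap.range β := by
      rintro _ ⟨X, rfl⟩ _ ⟨Y, rfl⟩
      refine ⟨R X * Y + X * R Y + lam • (X * Y), ?_⟩
      rw [hβ, hβ, hβ, ← hR X Y, Prod.mk_mul_mk]
      congr 1
      simp only [mul_add, add_mul, smul_mul_assoc, mul_smul_comm, smul_add]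
      abel
    have hdiag : ∀ Z, (Z, Z) ∈ LinearMap.range β → Z = 0 := by
      rintro Z ⟨X, hX⟩
      rw [hβ, Prod.mk.injEq] at hX
      obtain ⟨h1, h2⟩ := hX
      rw [h1, add_eq_left] at h2
      rw [← h1, (smul_eq_zero.1 h2).resolve_left hl, map_zero]
    let ψ : (Fin n ⊕ Fin n → F) →ₗ[F] Matrix (Fin n) (Fin n) F × Matrix (Fin n) (Fin n) F :=
      { toFun := fun s => (diagonal fun i => s (Sum.inl i), diagonal fun i => s (Sum.inr i))
        map_add' := fun s t => by
          rw [Prod.mk_add_mk, diagonal_add, diagonal_add]
          rfl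
        map_smul' := fun a s => by
          rw [RingHom.id_apply, Prod.smul_mk, ← diagonal_smul, ← diagonal_smul]
          rfl }
    have hψ : ∀ s, ψ s = (diagonal fun i => s (Sum.inl i), diagonal fun i => s (Sum.inr i)) :=
      fun _ => rfl
    let S : Submodule F (Fin n ⊕ Fin n → F) := (LinearMap.range β).comap ψ
    have hSm : ∀ s, s ∈ S ↔ ψ s ∈ LinearMap.range β := fun _ => Iff.rfl
    have hS : ∀ s ∈ S, ∀ t ∈ S, s * t ∈ S := by
      intro s hs t ht
      rw [hSm] at hs ht ⊢
      have : ψ (s * t) = ψ s * ψ t := by
        rw [hψ, hψ, hψ, Prod.mk_mul_mk, diagonal_mul_diagonal, diagonal_mul_diagonal]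
        rfl
      rw [this]
      exact hmul _ hs _ ht
    choose δ hδ using hd
    have hδ' : ∀ d i, δ d i = R (diagonal d) i i := by
      intro d i
      rw [hδ, diagonal_apply_eq]
    let θ : (Fin n → F) →ₗ[F] (Fin n ⊕ Fin n → F) :=
      { toFun := fun d => Sum.elim (δ d) (fun i => δ d i + lam * d i)
        map_add' := fun d d' => by
          funext p
          rcases p with i | i
          · simp only [Sum.elim_inl, Pi.add_apply, hδ']
            have : (diagonal (d + d') : Matrix (Fin n) (Fin n) F) = diagonal d + diagonal d' := by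
              rw [diagonal_add]
              rfl
            rw [this, map_add, Matrix.add_apply]
          · simp only [Sum.elim_inr, Pi.add_apply, hδ']
            have : (diagonal (d + d') : Matrix (Fin n) (Fin n) F) = diagonal d + diagonal d' := by
              rw [diagonal_add]
              rfl
            rw [this, map_add, Matrix.add_apply]
            ring
        map_smul' := fun a d => by
          funext p
          rcases p with i | i
          · simp only [Sum.elim_inl, Pi.smul_apply, hδ', smul_eq_mul, RingHom.id_apply]
            rw [diagonal_smul, map_smul, Matrix.smul_apply, smul_eq_mul]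
          · simp only [Sum.elim_inr, Pi.smul_apply, hδ', smul_eq_mul, RingHom.id_apply]
            rw [diagonal_smul, map_smul, Matrix.smul_apply, smul_eq_mul]
            ring }
    have hθl : ∀ d i, θ d (Sum.inl i) = δ d i := fun _ _ => rfl
    have hθr : ∀ d i, θ d (Sum.inr i) = δ d i + lam * d i := fun _ _ => rfl
    have hθi : Function.Injective θ := by
      rw [injective_iff_map_eq_zero]
      intro d h0
      funext i
      have h1 := congrFun h0 (Sum.inl i)
      have h2 := congrFun h0 (Sum.inr i)
      rw [hθl] at h1
      rw [hθr, h1] at h2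
      simp only [Pi.zero_apply, zero_add] at h2
      exact (mul_eq_zero.1 h2).resolve_left hl
    have hθS : LinearMap.range θ = S := by
      ext s
      constructor
      · rintro ⟨d, rfl⟩
        rw [hSm, hψ]
        refine ⟨diagonal d, ?_⟩
        rw [hβ, hδ]
        simp only [hθl, hθr]
        rw [← diagonal_smul, diagonal_add]
        rfl
      · intro hs
        rw [hSm, hψ] at hs
        obtain ⟨X, hX⟩ := hs
        rw [hβ, Prod.mk.injEq] at hX
        obtain ⟨h1, h2⟩ := hX
        have hXd : X = diagonal (fun i => lam⁻¹ * (s (Sum.inr i) - s (Sum.inl i))) := by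
          have h3 : lam • X = diagonal (fun i => s (Sum.inr i) - s (Sum.inl i)) := by
            rw [← diagonal_sub, ← h1, ← h2]
            abel
          rw [← inv_smul_smul₀ hl X, h3, ← diagonal_smul]
          rfl
        refine ⟨fun i => lam⁻¹ * (s (Sum.inr i) - s (Sum.inl i)), ?_⟩
        funext p
        have h4 : ∀ i, δ (fun i => lam⁻¹ * (s (Sum.inr i) - s (Sum.inl i))) i = s (Sum.inl i) := by
          intro i
          rw [hδ', ← hXd, h1, diagonal_apply_eq]
        rcases p with i | i
        · rw [hθl, h4]
        · rw [hθr, h4]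
          field_simp
          ring
    have hcard : Fintype.card (Classes S) = Fintype.card (Fin n) := by
      rw [← finrank_eq S hS, ← hθS, LinearMap.finrank_range_of_inj hθi,
        Module.finrank_fintype_fun_eq_card]
    let e : Classes S ≃ Fin n := Fintype.equivOfCardEq hcard
    have hmap : ∀ (o : Option (Classes S)) (v : Fin n),
        o.map e = some v ↔ o = some (e.symm v) := by
      intro o v
      rcases o with _ | q
      · simp
      · simp only [Option.map_some, Option.some.injEq]
        exact ⟨fun h => by rw [← h, e.symm_apply_apply], fun h => by rw [h, e.apply_symm_apply]⟩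
    refine ⟨fun i => (cl S (Sum.inl i)).map e, fun i => (cl S (Sum.inr i)).map e,
      LinearMap.range β, ?_, ?_, hmul, hdiag, fun X => ⟨X, rfl⟩⟩
    · intro f f0 hf
      set s : Fin n ⊕ Fin n → F := fun p => f ((cl S p).map e) with hs
      have h1 : s = ∑ v, f (some v) • (fun p => if cl S p = some (e.symm v) then (1 : F) else 0) := by
        funext p
        rw [Finset.sum_apply, hs]
        simp only [Pi.smul_apply, smul_eq_mul, mul_ite, mul_one, mul_zero]
        rcases hc : cl S p with _ | q
        · simp [f0]
        · rw [Finset.sum_eq_single (e q)]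
          · simp
          · intro v _ hv
            rw [if_neg]
            intro h2
            apply hv
            rw [Option.some.inj h2, e.apply_symm_apply]
          · simp
      have h2 : s ∈ S := by
        rw [h1]
        exact S.sum_mem fun v _ => S.smul_mem _ (ind_mem S hS _)
      have h3 : s = 0 := by
        rw [hSm, hψ] at h2
        have h4 : (fun i => s (Sum.inr i)) = fun i => s (Sum.inl i) := by
          funext i
          exact (hf i).symm
        rw [h4] at h2
        have h5 := hdiag _ h2
        have h6 : ∀ i, s (Sum.inl i) = 0 := by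
          intro i
          have := congrFun (congrFun h5 i) i
          rwa [diagonal_apply_eq] at this
        funext p
        rcases p with i | i
        · exact h6 i
        · rw [show s (Sum.inr i) = s (Sum.inl i) from congrFun h4 i]
          exact h6 i
      intro v
      rcases v with _ | v
      · exact f0
      · obtain ⟨p, hp⟩ := cl_surj S (e.symm v)
        have h7 := congrFun h3 p
        rw [hs] at h7
        simp only [hp, Option.map_some, e.apply_symm_apply] at h7
        exact h7
    · intro v
      have h1 := ind_mem S hS (e.symm v)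
      rw [hSm, hψ] at h1
      unfold vertexIdem
      simp only [hmap]
      exact h1
  · rintro ⟨h, t, B, hT, hE, hmul, hdiag, hRB⟩
    refine ⟨fun X Y => ?_, fun d => ?_⟩
    · have h1 := hmul _ (hRB X) _ (hRB Y)
      have h2 := hRB (R X * Y + X * R Y + lam • (X * Y))
      have h3 := B.sub_mem h1 h2
      rw [Prod.mk_mul_mk, Prod.mk_sub_mk] at h3
      have h4 : (R X + lam • X) * (R Y + lam • Y) -
          (R (R X * Y + X * R Y + lam • (X * Y)) + lam • (R X * Y + X * R Y + lam • (X * Y))) =
          R X * R Y - R (R X * Y + X * R Y + lam • (X * Y)) := by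
        simp only [mul_add, add_mul, smul_mul_assoc, mul_smul_comm, smul_add]
        abel
      rw [h4] at h3
      exact sub_eq_zero.1 (hdiag _ h3)
    · let D : (Fin n → F) →ₗ[F] (Fin n → F) :=
        { toFun := fun c i => (h i).elim 0 c - (t i).elim 0 c
          map_add' := fun c c' => by
            funext i
            change (h i).elim 0 (c + c') - (t i).elim 0 (c + c') =
              ((h i).elim 0 c - (t i).elim 0 c) + ((h i).elim 0 c' - (t i).elim 0 c')
            rw [elim_add, elim_add]
            ring
          map_smul' := fun a c => by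
            funext i
            change (h i).elim 0 (a • c) - (t i).elim 0 (a • c) =
              a * ((h i).elim 0 c - (t i).elim 0 c)
            rw [elim_smul, elim_smul]
            ring }
      have hD : ∀ c i, D c i = (h i).elim 0 c - (t i).elim 0 c := fun _ _ => rfl
      have hinj : Function.Injective D := by
        rw [injective_iff_map_eq_zero]
        intro c hc
        have h1 := hT (fun v => v.elim 0 c) rfl (fun i => by
          have := congrFun hc i
          rw [hD, Pi.zero_apply, sub_eq_zero] at this
          exact this)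
        funext v
        exact h1 (some v)
      obtain ⟨c, hc⟩ := (LinearMap.injective_iff_surjective.1 hinj) (fun i => -(lam * d i))
      have hsum : ∀ g : Fin n → Option (Fin n), (∑ v, c v • vertexIdem F g v) =
          diagonal fun i => (g i).elim 0 c := by
        intro g
        ext i j
        rw [Matrix.sum_apply]
        by_cases hij : i = j
        · subst hij
          simp only [Matrix.smul_apply, vertexIdem, diagonal_apply_eq, smul_eq_mul, mul_ite, mul_one,
            mul_zero]
          rcases hg : g i with _ | a
          · simp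
          · simp [Finset.sum_ite_eq]
        · simp [vertexIdem, Matrix.diagonal_apply_ne _ hij]
      have h1 : (diagonal fun i => (h i).elim 0 c, diagonal fun i => (t i).elim 0 c) ∈ B := by
        have h2 : (∑ v, c v • (vertexIdem F h v, vertexIdem F t v)) ∈ B :=
          B.sum_mem fun v _ => B.smul_mem _ (hE v)
        have h3 : (∑ v, c v • (vertexIdem F h v, vertexIdem F t v)) =
            (diagonal fun i => (h i).elim 0 c, diagonal fun i => (t i).elim 0 c) := by
          rw [← hsum h, ← hsum t]
          apply Prod.ext
          · simp [Prod.fst_sum]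
          · simp [Prod.snd_sum]
        rwa [h3] at h2
      refine ⟨fun i => (h i).elim 0 c, ?_⟩
      have h4 := B.sub_mem (hRB (diagonal d)) h1
      rw [Prod.mk_sub_mk] at h4
      have h5 : R (diagonal d) + lam • diagonal d - diagonal (fun i => (t i).elim 0 c) =
          R (diagonal d) - diagonal fun i => (h i).elim 0 c := by
        have h6 : lam • (diagonal d : Matrix (Fin n) (Fin n) F) =
            diagonal (fun i => (t i).elim 0 c) - diagonal fun i => (h i).elim 0 c := by
          rw [diagonal_sub, ← diagonal_smul]
          congr 1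
          funext i
          have := congrFun hc i
          rw [hD] at this
          rw [Pi.smul_apply, smul_eq_mul]
          linear_combination this
        rw [h6]
        abel
      rw [h5] at h4
      exact sub_eq_zero.1 (hdiag _ h4)

/-- `R` commutes with the entrywise multiplication by `g (h i) (h j)` when `g (h i) (h j) = g (t i) (t j)`
for all `i`, `j`. -/
theorem hadamard {lam : F}
    {R : Matrix (Fin n) (Fin n) F →ₗ[F] Matrix (Fin n) (Fin n) F}
    {h t : Fin n → Option (Fin n)}
    {B : Submodule F (Matrix (Fin n) (Fin n) F × Matrix (Fin n) (Fin n) F)}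
    (hE : ∀ v, (vertexIdem F h v, vertexIdem F t v) ∈ B) (hmul : ∀ X ∈ B, ∀ Y ∈ B, X * Y ∈ B)
    (hdiag : ∀ Z, (Z, Z) ∈ B → Z = 0) (hRB : ∀ X, (R X, R X + lam • X) ∈ B)
    (g : Option (Fin n) → Option (Fin n) → F) (hg : ∀ i j, g (h i) (h j) = g (t i) (t j))
    (X : Matrix (Fin n) (Fin n) F) :
    R (Matrix.of fun i j => g (h i) (h j) * X i j) =
      Matrix.of fun i j => g (h i) (h j) * R X i j := by
  classical
  let I : (Fin n → Option (Fin n)) → Option (Fin n) → Matrix (Fin n) (Fin n) F :=
    fun f v => diagonal fun i => if f i = v then 1 else 0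
  have hI : ∀ (f : Fin n → Option (Fin n)), ∑ v, I f v = 1 := by
    intro f
    ext i j
    rw [Matrix.sum_apply]
    by_cases hij : i = j
    · subst hij
      simp [I, Finset.sum_ite_eq]
    · simp [I, Matrix.diagonal_apply_ne _ hij, Matrix.one_apply_ne hij]
  let E : Option (Fin n) → Matrix (Fin n) (Fin n) F × Matrix (Fin n) (Fin n) F :=
    fun v => (I h v, I t v)
  have hE1 : ∑ v, E v = 1 := by
    apply Prod.ext
    · rw [Prod.fst_sum]
      exact hI h
    · rw [Prod.snd_sum]
      exact hI t
  have hEs : ∀ v, E (some v) ∈ B := hE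
  have hEl : ∀ v, ∀ b ∈ B, E v * b ∈ B := by
    intro v b hb
    rcases v with _ | v
    · have h1 : E none = 1 - ∑ v, E (some v) := by
        rw [← hE1, Fintype.sum_option, add_sub_cancel_right]
      rw [h1, sub_mul, one_mul, Finset.sum_mul]
      exact B.sub_mem hb (B.sum_mem fun v _ => hmul _ (hEs v) _ hb)
    · exact hmul _ (hEs v) _ hb
  have hEr : ∀ v, ∀ b ∈ B, b * E v ∈ B := by
    intro v b hb
    rcases v with _ | v
    · have h1 : E none = 1 - ∑ v, E (some v) := by
        rw [← hE1, Fintype.sum_option, add_sub_cancel_right]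
      rw [h1, mul_sub, mul_one, Finset.mul_sum]
      exact B.sub_mem hb (B.sum_mem fun v _ => hmul _ hb _ (hEs v))
    · exact hmul _ hb _ (hEs v)
  have hsum : ∀ (f : Fin n → Option (Fin n)) (Y : Matrix (Fin n) (Fin n) F),
      ∑ v, ∑ w, g v w • (I f v * Y * I f w) = Matrix.of fun i j => g (f i) (f j) * Y i j := by
    intro f Y
    ext i j
    simp only [Matrix.sum_apply, Matrix.smul_apply, Matrix.of_apply, smul_eq_mul, I,
      Matrix.mul_diagonal, Matrix.diagonal_mul]
    rw [Finset.sum_eq_single (f i)]
    · rw [Finset.sum_eq_single (f j)]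
      · simp
      · intro w _ hw
        rw [if_neg (Ne.symm hw)]
        ring
      · simp
    · intro v _ hv
      refine Finset.sum_eq_zero fun w _ => ?_
      rw [if_neg (Ne.symm hv)]
      ring
    · simp
  have hmem : ∀ b ∈ B, (∑ v, ∑ w, g v w • (E v * b * E w)) ∈ B := fun b hb =>
    B.sum_mem fun v _ => B.sum_mem fun w _ => B.smul_mem _ (hEr _ _ (hEl _ _ hb))
  have h1 := hmem _ (hRB X)
  have h2 : (∑ v, ∑ w, g v w • (E v * (R X, R X + lam • X) * E w)) =
      (Matrix.of fun i j => g (h i) (h j) * R X i j,
        Matrix.of fun i j => g (t i) (t j) * (R X + lam • X) i j) := by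
    rw [← hsum h, ← hsum t]
    apply Prod.ext
    · simp only [Prod.fst_sum, Prod.smul_fst, Prod.fst_mul]
      rfl
    · simp only [Prod.snd_sum, Prod.smul_snd, Prod.snd_mul]
      rfl
  rw [h2] at h1
  have h3 := B.sub_mem (hRB (Matrix.of fun i j => g (h i) (h j) * X i j)) h1
  rw [Prod.mk_sub_mk] at h3
  have h4 : R (Matrix.of fun i j => g (h i) (h j) * X i j) +
      lam • (Matrix.of fun i j => g (h i) (h j) * X i j) -
      (Matrix.of fun i j => g (t i) (t j) * (R X + lam • X) i j) =
      R (Matrix.of fun i j => g (h i) (h j) * X i j) -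
      Matrix.of fun i j => g (h i) (h j) * R X i j := by
    ext i j
    simp only [Matrix.sub_apply, Matrix.add_apply, Matrix.smul_apply, Matrix.of_apply, smul_eq_mul,
      ← hg]
    ring
  rw [h4] at h3
  exact sub_eq_zero.1 (hdiag _ h3)

end tree

end Pool.Agent.J6H23.RB
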